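import Pool.Agent.helper75.IQ.CAL4

/-!
Row iq:CAL (MP_84f457_gt): the calibration.
-/

set_option autoImplicit false

namespace Pool.Agent.helper75.IQ

open MeasureTheory Set Filter Topology

theorem CAL_DQ_int {κ H a b c d : ℝ} (P : CAL_Par κ H a b c d) (τ : ℝ) {η : ℝ} (hη : 0 < η) {m' : ℝ × ℝ → ℝ}
    (hm : ContDiff ℝ 1 m') {E : Set Sp} (hE : IsCompact E)
    (hz : ∀ p, p ∉ E → CAL_D m' η p * CAL_Q κ τ H a b m' (pr p) = 0) :
    Integrable (fun p : Sp => CAL_D m' η p * CAL_Q κ τ H a b m' (pr p)) ∧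
    ∫ p in E, CAL_D m' η p * CAL_Q κ τ H a b m' (pr p) = 2 * ∫ q, CAL_Q κ τ H a b m' q := by
  have hc : Continuous (fun p : Sp => CAL_D m' η p * CAL_Q κ τ H a b m' (pr p)) :=
    (CAL_D_cont hm η).mul ((CAL_Q_cont P τ hm).comp CAL_pr_contDiff.continuous)
  have hi : Integrable (fun p : Sp => CAL_D m' η p * CAL_Q κ τ H a b m' (pr p)) :=
    hc.integrable_of_hasCompactSupport (HasCompactSupport.intro hE hz)
  refine ⟨hi, ?_⟩
  rw [setIntegral_eq_integral_of_forall_compl_eq_zero hz]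
  have hQ : Integrable (fun q => CAL_Q κ τ H a b m' q) :=
    (CAL_Q_cont P τ hm).integrable_of_hasCompactSupport (CAL_supp (b := b) fun q hq => CAL_Q_zero τ m' P.ab hq.le)
  have e1 : ∫ p : Sp, CAL_D m' η p * CAL_Q κ τ H a b m' (pr p) =
      ∫ x : ℝ, ∫ yt : ℝ × ℝ, CAL_D m' η (x, yt) * CAL_Q κ τ H a b m' (pr (x, yt)) := integral_prod _ hi
  have e2 : ∫ q : ℝ × ℝ, CAL_Q κ τ H a b m' q = ∫ x : ℝ, ∫ y : ℝ, CAL_Q κ τ H a b m' (x, y) := integral_prod _ hQ
  rw [e1, e2, ← integral_const_mul]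
  refine integral_congr_ae ?_
  filter_upwards [hi.prod_right_ae] with x hx
  have e3 : ∫ yt : ℝ × ℝ, CAL_D m' η (x, yt) * CAL_Q κ τ H a b m' (pr (x, yt)) =
      ∫ y : ℝ, ∫ t : ℝ, CAL_D m' η (x, y, t) * CAL_Q κ τ H a b m' (pr (x, y, t)) := integral_prod _ hx
  rw [e3, ← integral_const_mul]
  refine integral_congr_ae (Eventually.of_forall fun y => ?_)
  have e4 : ∀ t : ℝ, CAL_D m' η (x, y, t) * CAL_Q κ τ H a b m' (pr (x, y, t)) =
      CAL_D m' η (x, y, t) * CAL_Q κ τ H a b m' (x, y) := fun t => rfl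
  simp only [e4]
  rw [integral_mul_const, CAL_D_int hm hη]

theorem CAL_vol {κ : ℝ} {E : Set Sp} (hE : IsCompact E) (hs : ∀ p ∈ E, 0 < 1 + κ / 4 * nq (pr p)) :
    IntegrableOn (fun p : Sp => lam κ (nq (pr p)) ^ 2) E ∧
    (vol κ E).toReal = ∫ p in E, lam κ (nq (pr p)) ^ 2 := by
  have hc : ContinuousOn (fun p : Sp => lam κ (nq (pr p)) ^ 2) E := by
    refine ContinuousOn.pow ?_ 2
    intro p hp
    have h1 : ContinuousAt (lam κ) (nq (pr p)) := (CAL_lam_contDiffAt (hs p hp).ne').continuousAt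
    have h2 : ContinuousAt (fun p : Sp => nq (pr p)) p := CAL_nqpr_contDiff.continuous.continuousAt
    exact (ContinuousAt.comp (g := lam κ) (f := fun p : Sp => nq (pr p)) h1 h2).continuousWithinAt
  have hi : IntegrableOn (fun p : Sp => lam κ (nq (pr p)) ^ 2) E := hc.integrableOn_compact hE
  refine ⟨hi, ?_⟩
  unfold vol
  rw [← ofReal_integral_eq_lintegral_ofReal hi (Eventually.of_forall fun p => sq_nonneg _)]
  exact ENNReal.toReal_ofReal (integral_nonneg fun p => sq_nonneg _)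

theorem CAL_main (hPOL : POL_stmt) {κ H a b c d : ℝ} (P : CAL_Par κ H a b c d) (τ : ℝ) {η C : ℝ} (hη : 0 < η)
    {m' : ℝ × ℝ → ℝ} (hm : ContDiff ℝ 1 m') {E : Set Sp} (hE : IsCompact E)
    (h1 : ∀ p ∈ E, nq (pr p) < c) (h2 : ∀ p ∈ E, p.2.2 ^ 2 < C ^ 2)
    (h3 : ∀ q : ℝ × ℝ, nq q ≤ b → ∀ t ∈ Icc (m' q) (m' q + η), ((q.1, q.2, t) : Sp) ∈ E) :
    2 * H * (vol κ E).toReal + 2 * Real.pi * ∫ w in (0 : ℝ)..a, √(1 - H ^ 2 * w) * GG κ τ w ≤
      TT κ τ E (CAL_Y τ H a b c d C η m') := by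
  have hz : ∀ p, p ∉ E → CAL_D m' η p * CAL_Q κ τ H a b m' (pr p) = 0 := by
    intro p hp
    by_cases hb : b ≤ nq (pr p)
    · rw [CAL_Q_zero τ m' P.ab hb, mul_zero]
    · rw [CAL_D_zero hη, zero_mul]
      intro ht
      exact hp (h3 (pr p) (not_le.1 hb).le p.2.2 ht)
  obtain ⟨hi, hint⟩ := CAL_DQ_int P τ hη hm hE hz
  obtain ⟨hvi, hv⟩ := CAL_vol (κ := κ) hE fun p hp => P.kw ((h1 p hp).le.trans P.cd.le)
  have e1 : TT κ τ E (CAL_Y τ H a b c d C η m') =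
      ∫ p in E, (2 * H * lam κ (nq (pr p)) ^ 2 + CAL_D m' η p * CAL_Q κ τ H a b m' (pr p)) := by
    unfold TT
    exact setIntegral_congr_fun hE.measurableSet fun p hp => CAL_dv P τ C η hm (h1 p hp) (h2 p hp)
  rw [e1, integral_add (hvi.const_mul (2 * H)) hi.integrableOn, hint, integral_const_mul, hv]
  have h5 := CAL_Q_int hPOL P τ hm
  linarith

theorem CAL (hPOL : POL_stmt) (hSEC : SEC_stmt) : CAL_stmt := by
  intro κ τ r m E hκ hE hT H r0 ε C hH hHr hr0 hr0r hε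
  have hr : 0 < r := hT.r0
  -- the radii
  have hev : ∀ᶠ ρ in 𝓝[>] r, H * ρ < 1 ∧ -4 < κ * ρ ^ 2 := by
    have c1 : ContinuousAt (fun ρ : ℝ => H * ρ) r := by fun_prop
    have c2 : ContinuousAt (fun ρ : ℝ => κ * ρ ^ 2) r := by fun_prop
    have e1 : ∀ᶠ ρ in 𝓝 r, H * ρ < 1 := c1.eventually (gt_mem_nhds hHr)
    have e2 : ∀ᶠ ρ in 𝓝 r, -4 < κ * ρ ^ 2 := c2.eventually (lt_mem_nhds hT.rk)
    exact (e1.and e2).filter_mono nhdsWithin_le_nhds
  obtain ⟨r3, ⟨h31, h32⟩, h33⟩ := (hev.and self_mem_nhdsWithin).exists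
  have h33' : r < r3 := h33
  set r1 := (r0 + r) / 2 with hr1
  set r2 := (r + r3) / 2 with hr2
  have hr01 : r0 < r1 := by rw [hr1]; linarith
  have hr1r : r1 < r := by rw [hr1]; linarith
  have hrr2 : r < r2 := by rw [hr2]; linarith
  have hr23 : r2 < r3 := by rw [hr2]; linarith
  have P : CAL_Par κ H (r0 ^ 2) (r1 ^ 2) (r2 ^ 2) (r3 ^ 2) :=
    { k0 := hκ
      h0 := hH
      a0 := by positivity
      ab := by nlinarith
      bc := by nlinarith
      cd := by nlinarith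
      hd := by
        have h0 : 0 ≤ H * r3 := mul_nonneg hH (by linarith)
        have h1 : (H * r3) ^ 2 < 1 := by nlinarith
        calc H ^ 2 * r3 ^ 2 = (H * r3) ^ 2 := by ring
          _ < 1 := h1
      kd := by linarith }
  obtain ⟨η, m', hη, hηε, hm, hsec⟩ := hSEC κ r m E hT r1 (ε / 2) (by linarith) hr1r (by linarith)
  -- bound for t
  obtain ⟨C0, hC0⟩ : ∃ C0 : ℝ, ∀ p ∈ E, |p.2.2| ≤ C0 := by
    have hc : ContinuousOn (fun p : Sp => p.2.2) E := by fun_prop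
    obtain ⟨C0, h⟩ := hE.exists_bound_of_continuousOn hc
    exact ⟨C0, fun p hp => by simpa using h p hp⟩
  set C' := max (max C C0) 0 + 1 with hC'
  have hC'1 : C < C' := by
    have := le_max_left C C0
    have := le_max_left (max C C0) 0
    linarith
  have hC'2 : C0 < C' := by
    have := le_max_right C C0
    have := le_max_left (max C C0) 0
    linarith
  have hC'0 : 0 < C' := by
    have := le_max_right (max C C0) 0
    linarith
  refine ⟨CAL_Y τ H (r0 ^ 2) (r1 ^ 2) (r2 ^ 2) (r3 ^ 2) C' η m', CAL_Y_adm P τ C' η hm, ?_, ?_⟩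
  · refine CAL_main hPOL P τ hη hm hE ?_ ?_ ?_
    · intro p hp
      have h1 := hT.cyl p hp
      nlinarith
    · intro p hp
      have h1 : |p.2.2| < C' := lt_of_le_of_lt (hC0 p hp) hC'2
      have h2 := abs_nonneg p.2.2
      rw [← sq_abs]
      nlinarith
    · intro q hq t ht
      exact interior_subset ((hsec q hq).2 t ht)
  · intro p hp hpt s hs hst
    have hpt' : p.2.2 ^ 2 ≤ C' ^ 2 := by
      have h2 := abs_nonneg p.2.2
      rw [← sq_abs]
      nlinarith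
    have hX : CAL_cut (C' ^ 2) (C' ^ 2 + 1) (p.2.2 ^ 2) = 1 := CAL_cut_one (by linarith) hpt'
    have hZ : CAL_cut (r2 ^ 2) (r3 ^ 2) (nq (pr p)) = 1 :=
      CAL_cut_one P.cd (hp.trans (P.ab.le.trans P.bc.le))
    have hA : CAL_cut (r0 ^ 2) (r1 ^ 2) (nq (pr p)) = 1 := CAL_cut_one P.ab hp
    have hmm := (hsec (pr p) (hp.trans P.ab.le)).1
    have hmm1 := (abs_le.1 hmm).1
    have hmm2 := (abs_le.1 hmm).2
    have hS : CAL_S m' η p = s := by
      rcases hs with hs | hs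
      · subst hs
        refine CAL_S_up hη ?_
        linarith
      · subst hs
        refine CAL_S_low hη ?_
        linarith
    refine ⟨?_, ?_, ?_⟩
    · simp only [CAL_Y, NN, CAL_h, hX, hZ, hA, hS, one_mul]
    · simp only [CAL_Y, NN, CAL_h, hX, hZ, hA, hS, one_mul]
    · simp only [CAL_Y, NN, CAL_h, hX, hA, hS, one_mul]

end Pool.Agent.helper75.IQ
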