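import Pool.Agent.helper75.IQ.Spec

/-!
Row iq:CAL (MP_84f457_gt), part 1: the divergence of the calibrating field.
-/

set_option autoImplicit false

namespace Pool.Agent.helper75.IQ

open MeasureTheory Set Filter Topology

/-! ### cut-offs -/

noncomputable def CAL_cut (a b w : ℝ) : ℝ := Real.smoothTransition ((b - w) / (b - a))

theorem CAL_cut_one {a b w : ℝ} (hab : a < b) (hw : w ≤ a) : CAL_cut a b w = 1 :=
  Real.smoothTransition.one_of_one_le (by rw [one_le_div (by linarith)]; linarith)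

theorem CAL_cut_zero {a b w : ℝ} (hab : a < b) (hw : b ≤ w) : CAL_cut a b w = 0 :=
  Real.smoothTransition.zero_of_nonpos (div_nonpos_of_nonpos_of_nonneg (by linarith) (by linarith))

theorem CAL_cut_nonneg (a b w : ℝ) : 0 ≤ CAL_cut a b w := Real.smoothTransition.nonneg _

theorem CAL_cut_le_one (a b w : ℝ) : CAL_cut a b w ≤ 1 := Real.smoothTransition.le_one _

theorem CAL_cut_contDiff (a b : ℝ) : ContDiff ℝ 1 (CAL_cut a b) := by
  unfold CAL_cut
  exact (Real.smoothTransition.contDiff (n := 1)).comp ((contDiff_const.sub contDiff_id).div_const _)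

/-! ### partial derivatives -/

theorem CAL_fx {F : Sp → ℝ} {x y t d : ℝ} (hF : DifferentiableAt ℝ F (x, y, t))
    (h : HasDerivAt (fun s => F (s, y, t)) d x) : fderiv ℝ F (x, y, t) (1, 0, 0) = d := by
  have h1 : HasDerivAt (fun s : ℝ => ((s, y, t) : Sp)) (1, 0, 0) x :=
    (hasDerivAt_id x).prodMk (hasDerivAt_const x ((y, t) : ℝ × ℝ))
  exact (hF.hasFDerivAt.comp_hasDerivAt x h1).unique h

theorem CAL_fy {F : Sp → ℝ} {x y t d : ℝ} (hF : DifferentiableAt ℝ F (x, y, t))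
    (h : HasDerivAt (fun s => F (x, s, t)) d y) : fderiv ℝ F (x, y, t) (0, 1, 0) = d := by
  have h1 : HasDerivAt (fun s : ℝ => ((x, s, t) : Sp)) (0, 1, 0) y :=
    (hasDerivAt_const y x).prodMk ((hasDerivAt_id y).prodMk (hasDerivAt_const y t))
  exact (hF.hasFDerivAt.comp_hasDerivAt y h1).unique h

theorem CAL_ft {F : Sp → ℝ} {x y t d : ℝ} (hF : DifferentiableAt ℝ F (x, y, t))
    (h : HasDerivAt (fun s => F (x, y, s)) d t) : fderiv ℝ F (x, y, t) (0, 0, 1) = d := by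
  have h1 : HasDerivAt (fun s : ℝ => ((x, y, s) : Sp)) (0, 0, 1) t :=
    (hasDerivAt_const t x).prodMk ((hasDerivAt_const t y).prodMk (hasDerivAt_id t))
  exact (hF.hasFDerivAt.comp_hasDerivAt t h1).unique h

theorem CAL_lam {κ w : ℝ} (hw : 1 + κ / 4 * w ≠ 0) : HasDerivAt (lam κ) (-(κ / 4) * lam κ w ^ 2) w := by
  have h1 : HasDerivAt (fun v : ℝ => 1 + κ / 4 * v) (κ / 4) w := by
    have := ((hasDerivAt_id w).const_mul (κ / 4)).const_add 1
    simpa using this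
  have h2 := h1.inv hw
  have h3 : -(κ / 4) / (1 + κ / 4 * w) ^ 2 = -(κ / 4) * lam κ w ^ 2 := by
    unfold lam
    rw [inv_pow, div_eq_mul_inv]
  rw [h3] at h2
  exact h2

theorem CAL_comp {f g : ℝ → ℝ} {a b x : ℝ} (hf : HasDerivAt f a (g x)) (hg : HasDerivAt g b x) :
    HasDerivAt (fun s => f (g s)) (a * b) x := HasDerivAt.comp x hf hg

theorem CAL_dcomp {f : ℝ → ℝ} {g : Sp → ℝ} {p : Sp} (hf : DifferentiableAt ℝ f (g p)) (hg : DifferentiableAt ℝ g p) :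
    DifferentiableAt ℝ (fun s => f (g s)) p := hf.comp p hg

theorem CAL_dv_aux {κ τ H : ℝ} {h : ℝ → ℝ} {S : Sp → ℝ} {x y t hd D mx my : ℝ}
    (hw : 1 + κ / 4 * (x ^ 2 + y ^ 2) ≠ 0) (hh : HasDerivAt h hd (x ^ 2 + y ^ 2))
    (Sx : HasDerivAt (fun s => S (s, y, t)) (-(D * mx)) x) (Sy : HasDerivAt (fun s => S (x, s, t)) (-(D * my)) y)
    (St : HasDerivAt (fun s => S (x, y, s)) D t) {Y : VF}
    (da : DifferentiableAt ℝ Y.a (x, y, t)) (db : DifferentiableAt ℝ Y.b (x, y, t))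
    (dc : DifferentiableAt ℝ Y.c (x, y, t))
    (ha : Y.a =ᶠ[𝓝 (x, y, t)] fun q => H * q.1 - S q * h (nq (pr q)) * τ * q.2.1)
    (hb : Y.b =ᶠ[𝓝 (x, y, t)] fun q => H * q.2.1 + S q * h (nq (pr q)) * τ * q.1)
    (hc : Y.c =ᶠ[𝓝 (x, y, t)] fun q => S q * h (nq (pr q))) :
    dv κ τ Y (x, y, t) = 2 * H * lam κ (x ^ 2 + y ^ 2) ^ 2 + D * (h (x ^ 2 + y ^ 2) *
      (lam κ (x ^ 2 + y ^ 2) * τ * (y * mx - x * my) +
        lam κ (x ^ 2 + y ^ 2) ^ 2 * (1 + τ ^ 2 * (x ^ 2 + y ^ 2)))) := by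
  have cx : Tendsto (fun s : ℝ => ((s, y, t) : Sp)) (𝓝 x) (𝓝 (x, y, t)) :=
    (continuous_id.prodMk continuous_const).tendsto x
  have cy : Tendsto (fun s : ℝ => ((x, s, t) : Sp)) (𝓝 y) (𝓝 (x, y, t)) :=
    (continuous_const.prodMk (continuous_id.prodMk continuous_const)).tendsto y
  have ct : Tendsto (fun s : ℝ => ((x, y, s) : Sp)) (𝓝 t) (𝓝 (x, y, t)) :=
    (continuous_const.prodMk (continuous_const.prodMk continuous_id)).tendsto t
  have wx : HasDerivAt (fun s : ℝ => s ^ 2 + y ^ 2) (2 * x) x := by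
    have := ((hasDerivAt_id x).pow 2).add_const (y ^ 2)
    simpa using this
  have wy : HasDerivAt (fun s : ℝ => x ^ 2 + s ^ 2) (2 * y) y := by
    have := ((hasDerivAt_id y).pow 2).const_add (x ^ 2)
    simpa using this
  have Lx : HasDerivAt (fun s : ℝ => lam κ (s ^ 2 + y ^ 2)) (-(κ / 4) * lam κ (x ^ 2 + y ^ 2) ^ 2 * (2 * x)) x :=
    CAL_comp (CAL_lam hw) wx
  have Ly : HasDerivAt (fun s : ℝ => lam κ (x ^ 2 + s ^ 2)) (-(κ / 4) * lam κ (x ^ 2 + y ^ 2) ^ 2 * (2 * y)) y :=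
    CAL_comp (CAL_lam hw) wy
  have hx : HasDerivAt (fun s : ℝ => h (s ^ 2 + y ^ 2)) (hd * (2 * x)) x := CAL_comp hh wx
  have hy : HasDerivAt (fun s : ℝ => h (x ^ 2 + s ^ 2)) (hd * (2 * y)) y := CAL_comp hh wy
  have dL : DifferentiableAt ℝ (fun q : Sp => lam κ (nq (pr q))) (x, y, t) := by
    have h1 : DifferentiableAt ℝ (fun q : Sp => nq (pr q)) (x, y, t) := by
      unfold nq pr; fun_prop
    have h2 : DifferentiableAt ℝ (lam κ) (nq (pr ((x, y, t) : Sp))) := (CAL_lam hw).differentiableAt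
    exact CAL_dcomp h2 h1
  have e1 : fderiv ℝ (fun q : Sp => lam κ (nq (pr q)) * Y.a q) (x, y, t) (1, 0, 0) =
      -(κ / 4) * lam κ (x ^ 2 + y ^ 2) ^ 2 * (2 * x) * (H * x - S (x, y, t) * h (x ^ 2 + y ^ 2) * τ * y) +
        lam κ (x ^ 2 + y ^ 2) * (H - (-(D * mx) * h (x ^ 2 + y ^ 2) + S (x, y, t) * (hd * (2 * x))) * τ * y) := by
    refine CAL_fx (dL.mul da) ?_
    have g1 : HasDerivAt (fun s : ℝ => lam κ (s ^ 2 + y ^ 2) *
        (H * s - S (s, y, t) * h (s ^ 2 + y ^ 2) * τ * y)) (-(κ / 4) * lam κ (x ^ 2 + y ^ 2) ^ 2 * (2 * x) *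
        (H * x - S (x, y, t) * h (x ^ 2 + y ^ 2) * τ * y) +
        lam κ (x ^ 2 + y ^ 2) * (H - (-(D * mx) * h (x ^ 2 + y ^ 2) + S (x, y, t) * (hd * (2 * x))) * τ * y)) x := by
      have g2 : HasDerivAt (fun s : ℝ => H * s - S (s, y, t) * h (s ^ 2 + y ^ 2) * τ * y)
          (H * 1 - (-(D * mx) * h (x ^ 2 + y ^ 2) + S (x, y, t) * (hd * (2 * x))) * τ * y) x :=
        ((hasDerivAt_id x).const_mul H).fun_sub (((Sx.fun_mul hx).mul_const τ).mul_const y)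
      refine (Lx.fun_mul g2).congr_deriv ?_
      ring
    refine g1.congr_of_eventuallyEq ?_
    have := ha.comp_tendsto cx
    filter_upwards [this] with s hs
    have hs' : Y.a (s, y, t) = H * s - S (s, y, t) * h (nq (pr ((s, y, t) : Sp))) * τ * y := hs
    show lam κ (s ^ 2 + y ^ 2) * Y.a (s, y, t) = _
    rw [hs']
    rfl
  have e2 : fderiv ℝ (fun q : Sp => lam κ (nq (pr q)) * Y.b q) (x, y, t) (0, 1, 0) =
      -(κ / 4) * lam κ (x ^ 2 + y ^ 2) ^ 2 * (2 * y) * (H * y + S (x, y, t) * h (x ^ 2 + y ^ 2) * τ * x) +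
        lam κ (x ^ 2 + y ^ 2) * (H + (-(D * my) * h (x ^ 2 + y ^ 2) + S (x, y, t) * (hd * (2 * y))) * τ * x) := by
    refine CAL_fy (dL.mul db) ?_
    have g1 : HasDerivAt (fun s : ℝ => lam κ (x ^ 2 + s ^ 2) *
        (H * s + S (x, s, t) * h (x ^ 2 + s ^ 2) * τ * x)) (-(κ / 4) * lam κ (x ^ 2 + y ^ 2) ^ 2 * (2 * y) *
        (H * y + S (x, y, t) * h (x ^ 2 + y ^ 2) * τ * x) +
        lam κ (x ^ 2 + y ^ 2) * (H + (-(D * my) * h (x ^ 2 + y ^ 2) + S (x, y, t) * (hd * (2 * y))) * τ * x)) y := by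
      have g2 : HasDerivAt (fun s : ℝ => H * s + S (x, s, t) * h (x ^ 2 + s ^ 2) * τ * x)
          (H * 1 + (-(D * my) * h (x ^ 2 + y ^ 2) + S (x, y, t) * (hd * (2 * y))) * τ * x) y :=
        ((hasDerivAt_id y).const_mul H).fun_add (((Sy.fun_mul hy).mul_const τ).mul_const x)
      refine (Ly.fun_mul g2).congr_deriv ?_
      ring
    refine g1.congr_of_eventuallyEq ?_
    have := hb.comp_tendsto cy
    filter_upwards [this] with s hs
    have hs' : Y.b (x, s, t) = H * s + S (x, s, t) * h (nq (pr ((x, s, t) : Sp))) * τ * x := hs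
    show lam κ (x ^ 2 + s ^ 2) * Y.b (x, s, t) = _
    rw [hs']
    rfl
  have e3 : fderiv ℝ Y.a (x, y, t) (0, 0, 1) = -(D * h (x ^ 2 + y ^ 2) * τ * y) := by
    refine CAL_ft da ?_
    have g1 : HasDerivAt (fun s : ℝ => H * x - S (x, y, s) * h (x ^ 2 + y ^ 2) * τ * y)
        (-(D * h (x ^ 2 + y ^ 2) * τ * y)) t := by
      have g2 := (((St.mul_const (h (x ^ 2 + y ^ 2))).mul_const τ).mul_const y).const_sub (H * x)
      simpa using g2
    refine g1.congr_of_eventuallyEq ?_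
    exact ha.comp_tendsto ct
  have e4 : fderiv ℝ Y.b (x, y, t) (0, 0, 1) = D * h (x ^ 2 + y ^ 2) * τ * x := by
    refine CAL_ft db ?_
    have g1 : HasDerivAt (fun s : ℝ => H * y + S (x, y, s) * h (x ^ 2 + y ^ 2) * τ * x)
        (D * h (x ^ 2 + y ^ 2) * τ * x) t := by
      have g2 := (((St.mul_const (h (x ^ 2 + y ^ 2))).mul_const τ).mul_const x).const_add (H * y)
      simpa using g2
    refine g1.congr_of_eventuallyEq ?_
    exact hb.comp_tendsto ct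
  have e5 : fderiv ℝ Y.c (x, y, t) (0, 0, 1) = D * h (x ^ 2 + y ^ 2) := by
    refine CAL_ft dc ?_
    refine (St.mul_const (h (x ^ 2 + y ^ 2))).congr_of_eventuallyEq ?_
    exact hc.comp_tendsto ct
  have e6 : lam κ (x ^ 2 + y ^ 2) * (1 + κ / 4 * (x ^ 2 + y ^ 2)) = 1 := by
    unfold lam
    exact inv_mul_cancel₀ hw
  unfold dv
  rw [e1, e2, e3, e4, e5]
  show _ + lam κ (x ^ 2 + y ^ 2) ^ 2 * (-(τ * y) * _ + τ * x * _ + _) = _
  linear_combination (-(2 * H * lam κ (x ^ 2 + y ^ 2))) * e6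

end Pool.Agent.helper75.IQ
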