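import Pool.Agent.helper75.IQ.CAL1

/-!
Row iq:CAL (MP_84f457_gt), part 2: the calibrating field is admissible.
-/

set_option autoImplicit false

namespace Pool.Agent.helper75.IQ

open MeasureTheory Set Filter Topology

theorem CAL_nq_nonneg (q : ℝ × ℝ) : 0 ≤ nq q := by unfold nq; positivity

theorem CAL_nq_contDiff : ContDiff ℝ 1 nq := by
  unfold nq
  fun_prop

theorem CAL_pr_contDiff : ContDiff ℝ 1 pr := by
  unfold pr
  fun_prop

theorem CAL_nqpr_contDiff : ContDiff ℝ 1 (fun p : Sp => nq (pr p)) := CAL_nq_contDiff.comp CAL_pr_contDiff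

/-- the parameters of the construction -/
structure CAL_Par (κ H a b c d : ℝ) : Prop where
  k0 : κ ≤ 0
  h0 : 0 ≤ H
  a0 : 0 < a
  ab : a < b
  bc : b < c
  cd : c < d
  hd : H ^ 2 * d < 1
  kd : 0 < 1 + κ / 4 * d

theorem CAL_Par.hw {κ H a b c d w : ℝ} (P : CAL_Par κ H a b c d) (hw : w ≤ d) : H ^ 2 * w < 1 :=
  lt_of_le_of_lt (mul_le_mul_of_nonneg_left hw (sq_nonneg H)) P.hd

theorem CAL_Par.kw {κ H a b c d w : ℝ} (P : CAL_Par κ H a b c d) (hw : w ≤ d) : 0 < 1 + κ / 4 * w := by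
  have h1 := P.kd
  have h2 : κ / 4 * d ≤ κ / 4 * w := mul_le_mul_of_nonpos_left hw (by linarith [P.k0])
  linarith

theorem CAL_cutmul_contDiff {E : Type*} [NormedAddCommGroup E] [NormedSpace ℝ E] {a b c : ℝ} (hab : a < b)
    (hbc : b < c) {f : ℝ → ℝ} {N : E → ℝ} (hN : ContDiff ℝ 1 N) (hN0 : ∀ q, 0 ≤ N q)
    (hf : ∀ w, 0 ≤ w → w < c → ContDiffAt ℝ 1 f w) : ContDiff ℝ 1 (fun q => CAL_cut a b (N q) * f (N q)) := by
  rw [contDiff_iff_contDiffAt]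
  intro q
  by_cases hq : N q < c
  · have h1 : ContDiffAt ℝ 1 (fun q => CAL_cut a b (N q)) q := ((CAL_cut_contDiff a b).comp hN).contDiffAt
    have h2 : ContDiffAt ℝ 1 (fun q => f (N q)) q := (hf (N q) (hN0 q) hq).comp q hN.contDiffAt
    exact h1.mul h2
  · have h1 : b < N q := by linarith [not_lt.1 hq]
    have h2 : ∀ᶠ q' in 𝓝 q, b < N q' := hN.continuous.continuousAt.eventually (lt_mem_nhds h1)
    have h3 : (fun q => CAL_cut a b (N q) * f (N q)) =ᶠ[𝓝 q] fun _ => (0 : ℝ) := by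
      filter_upwards [h2] with q' hq'
      rw [CAL_cut_zero hab hq'.le, zero_mul]
    exact contDiffAt_const.congr_of_eventuallyEq h3

theorem CAL_cutmul_diff {a b c : ℝ} (hab : a < b) (hbc : b < c) {f : ℝ → ℝ}
    (hf : ∀ w, 0 ≤ w → w < c → ContDiffAt ℝ 1 f w) {w : ℝ} (hw : 0 ≤ w) :
    DifferentiableAt ℝ (fun w => CAL_cut a b w * f w) w := by
  by_cases hq : w < c
  · exact ((CAL_cut_contDiff a b).differentiable one_ne_zero w).mul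
      ((hf w hw hq).differentiableAt one_ne_zero)
  · have h1 : b < w := by linarith [not_lt.1 hq]
    have h2 : ∀ᶠ q' in 𝓝 w, b < q' := lt_mem_nhds h1
    have h3 : (fun w => CAL_cut a b w * f w) =ᶠ[𝓝 w] fun _ => (0 : ℝ) := by
      filter_upwards [h2] with q' hq'
      rw [CAL_cut_zero hab hq'.le, zero_mul]
    exact (differentiableAt_const (0 : ℝ)).congr_of_eventuallyEq h3

theorem CAL_kk_contDiffAt (τ : ℝ) {H w : ℝ} (hw0 : 0 ≤ w) (hw : H ^ 2 * w < 1) : ContDiffAt ℝ 1 (kk τ H) w := by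
  unfold kk
  have h1 : (0 : ℝ) < 1 + τ ^ 2 * w := by positivity
  have h2 : 1 - H ^ 2 * w ≠ 0 := by linarith
  have h3 : √(1 + τ ^ 2 * w) ≠ 0 := (Real.sqrt_pos.2 h1).ne'
  refine ContDiffAt.div ?_ ?_ h3
  · refine ContDiffAt.sqrt ?_ h2
    fun_prop
  · refine ContDiffAt.sqrt ?_ h1.ne'
    fun_prop

theorem CAL_lam_contDiffAt {κ w : ℝ} (hw : 1 + κ / 4 * w ≠ 0) : ContDiffAt ℝ 1 (lam κ) w := by
  unfold lam
  refine ContDiffAt.inv ?_ hw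
  fun_prop

theorem CAL_kk_sq (τ : ℝ) {H w : ℝ} (hw0 : 0 ≤ w) (hw : H ^ 2 * w < 1) :
    kk τ H w ^ 2 * (1 + τ ^ 2 * w) = 1 - H ^ 2 * w := by
  have h1 : (0 : ℝ) < 1 + τ ^ 2 * w := by positivity
  unfold kk
  rw [div_pow, Real.sq_sqrt (by linarith), Real.sq_sqrt h1.le, div_mul_cancel₀ _ h1.ne']

/-! ### the side function -/

noncomputable def CAL_S (m' : ℝ × ℝ → ℝ) (η : ℝ) (p : Sp) : ℝ :=
  2 * Real.smoothTransition ((p.2.2 - m' (pr p)) / η) - 1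

theorem CAL_S_contDiff {m' : ℝ × ℝ → ℝ} (hm : ContDiff ℝ 1 m') (η : ℝ) : ContDiff ℝ 1 (CAL_S m' η) := by
  unfold CAL_S
  have h1 : ContDiff ℝ 1 (fun p : Sp => m' (pr p)) := hm.comp CAL_pr_contDiff
  have h2 : ContDiff ℝ 1 (fun p : Sp => (p.2.2 - m' (pr p)) / η) := by
    refine ContDiff.div_const ?_ _
    exact (by fun_prop : ContDiff ℝ 1 (fun p : Sp => p.2.2)).sub h1
  have h3 : ContDiff ℝ 1 (fun p : Sp => Real.smoothTransition ((p.2.2 - m' (pr p)) / η)) :=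
    (Real.smoothTransition.contDiff (n := 1)).comp h2
  exact (contDiff_const.mul h3).sub contDiff_const

theorem CAL_S_sq (m' : ℝ × ℝ → ℝ) (η : ℝ) (p : Sp) : CAL_S m' η p ^ 2 ≤ 1 := by
  unfold CAL_S
  have h1 := Real.smoothTransition.nonneg ((p.2.2 - m' (pr p)) / η)
  have h2 := Real.smoothTransition.le_one ((p.2.2 - m' (pr p)) / η)
  nlinarith

theorem CAL_S_low {m' : ℝ × ℝ → ℝ} {η : ℝ} (hη : 0 < η) {p : Sp} (hp : p.2.2 ≤ m' (pr p)) : CAL_S m' η p = -1 := by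
  unfold CAL_S
  rw [Real.smoothTransition.zero_of_nonpos (div_nonpos_of_nonpos_of_nonneg (by linarith) hη.le)]
  ring

theorem CAL_S_up {m' : ℝ × ℝ → ℝ} {η : ℝ} (hη : 0 < η) {p : Sp} (hp : m' (pr p) + η ≤ p.2.2) : CAL_S m' η p = 1 := by
  unfold CAL_S
  rw [Real.smoothTransition.one_of_one_le (by rw [one_le_div hη]; linarith)]
  ring

/-! ### the field -/

noncomputable def CAL_h (τ H a b w : ℝ) : ℝ := CAL_cut a b w * kk τ H w

noncomputable def CAL_Y (τ H a b c d C η : ℝ) (m' : ℝ × ℝ → ℝ) : VF where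
  a p := CAL_cut (C ^ 2) (C ^ 2 + 1) (p.2.2 ^ 2) * (H * (CAL_cut c d (nq (pr p)) * p.1) -
    CAL_S m' η p * CAL_h τ H a b (nq (pr p)) * τ * p.2.1)
  b p := CAL_cut (C ^ 2) (C ^ 2 + 1) (p.2.2 ^ 2) * (H * (CAL_cut c d (nq (pr p)) * p.2.1) +
    CAL_S m' η p * CAL_h τ H a b (nq (pr p)) * τ * p.1)
  c p := CAL_cut (C ^ 2) (C ^ 2 + 1) (p.2.2 ^ 2) * (CAL_S m' η p * CAL_h τ H a b (nq (pr p)))

/-- the support -/
def CAL_K (d C : ℝ) : Set Sp := {p | nq (pr p) ≤ d ∧ p.2.2 ^ 2 ≤ C ^ 2 + 1}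

theorem CAL_K_closed (d C : ℝ) : IsClosed (CAL_K d C) := by
  have h1 : Continuous (fun p : Sp => nq (pr p)) := CAL_nqpr_contDiff.continuous
  have h2 : Continuous (fun p : Sp => p.2.2 ^ 2) := by fun_prop
  exact (isClosed_le h1 continuous_const).inter (isClosed_le h2 continuous_const)

theorem CAL_K_compact (d C : ℝ) : IsCompact (CAL_K d C) := by
  have h0 : IsCompact ((Icc (-(d + 1)) (d + 1)) ×ˢ ((Icc (-(d + 1)) (d + 1)) ×ˢ
    (Icc (-(C ^ 2 + 2)) (C ^ 2 + 2))) : Set Sp) := isCompact_Icc.prod (isCompact_Icc.prod isCompact_Icc)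
  refine h0.of_isClosed_subset (CAL_K_closed d C) ?_
  rintro ⟨x, y, t⟩ ⟨h1, h2⟩
  have h1' : x ^ 2 + y ^ 2 ≤ d := h1
  have h2' : t ^ 2 ≤ C ^ 2 + 1 := h2
  refine ⟨⟨?_, ?_⟩, ⟨?_, ?_⟩, ⟨?_, ?_⟩⟩ <;> simp only <;>
    nlinarith [sq_nonneg (x - 1), sq_nonneg (x + 1), sq_nonneg (y - 1), sq_nonneg (y + 1), sq_nonneg (t - 1),
      sq_nonneg (t + 1), sq_nonneg x, sq_nonneg y, sq_nonneg C]

theorem CAL_K_space {κ H a b c d : ℝ} (P : CAL_Par κ H a b c d) (C : ℝ) : CAL_K d C ⊆ space κ := by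
  intro p hp
  exact P.kw hp.1

theorem CAL_h_contDiff {κ H a b c d : ℝ} (P : CAL_Par κ H a b c d) (τ : ℝ) {E : Type*} [NormedAddCommGroup E]
    [NormedSpace ℝ E] {N : E → ℝ} (hN : ContDiff ℝ 1 N) (hN0 : ∀ q, 0 ≤ N q) :
    ContDiff ℝ 1 (fun q => CAL_h τ H a b (N q)) :=
  CAL_cutmul_contDiff P.ab P.bc hN hN0 fun _ h0 hw => CAL_kk_contDiffAt τ h0 (P.hw (hw.le.trans P.cd.le))

theorem CAL_h_zero (τ H : ℝ) {a b w : ℝ} (hab : a < b) (hw : b ≤ w) : CAL_h τ H a b w = 0 := by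
  unfold CAL_h
  rw [CAL_cut_zero hab hw, zero_mul]

theorem CAL_out {F : Sp → ℝ} {d C : ℝ} (h : ∀ p, p ∉ CAL_K d C → F p = 0) :
    HasCompactSupport F ∧ tsupport F ⊆ CAL_K d C := by
  have h1 : tsupport F ⊆ CAL_K d C := by
    refine closure_minimal ?_ (CAL_K_closed d C)
    intro p hp
    by_contra hc
    exact hp (h p hc)
  exact ⟨(CAL_K_compact d C).of_isClosed_subset isClosed_closure h1, h1⟩

theorem CAL_zero_out {κ H a b c d : ℝ} (P : CAL_Par κ H a b c d) (τ C η : ℝ) (m' : ℝ × ℝ → ℝ) (p : Sp)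
    (hp : p ∉ CAL_K d C) : (CAL_Y τ H a b c d C η m').a p = 0 ∧ (CAL_Y τ H a b c d C η m').b p = 0 ∧
      (CAL_Y τ H a b c d C η m').c p = 0 := by
  by_cases h1 : nq (pr p) ≤ d
  · have h2 : C ^ 2 + 1 ≤ p.2.2 ^ 2 := by
      by_contra h3
      exact hp ⟨h1, (not_le.1 h3).le⟩
    have h4 : CAL_cut (C ^ 2) (C ^ 2 + 1) (p.2.2 ^ 2) = 0 := CAL_cut_zero (by linarith) h2
    refine ⟨?_, ?_, ?_⟩ <;> simp only [CAL_Y, h4, zero_mul]
  · have h2 : d ≤ nq (pr p) := (not_le.1 h1).le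
    have h3 : CAL_cut c d (nq (pr p)) = 0 := CAL_cut_zero P.cd h2
    have h4 : CAL_h τ H a b (nq (pr p)) = 0 := CAL_h_zero τ H P.ab (by linarith [P.bc, P.cd])
    refine ⟨?_, ?_, ?_⟩ <;> simp only [CAL_Y, h3, h4, zero_mul, mul_zero, sub_zero, add_zero]

theorem CAL_Y_C1c {κ H a b c d : ℝ} (P : CAL_Par κ H a b c d) (τ C η : ℝ) {m' : ℝ × ℝ → ℝ}
    (hm : ContDiff ℝ 1 m') : C1c κ (CAL_Y τ H a b c d C η m') := by
  have e1 : ContDiff ℝ 1 (fun p : Sp => CAL_cut (C ^ 2) (C ^ 2 + 1) (p.2.2 ^ 2)) :=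
    (CAL_cut_contDiff _ _).comp (by fun_prop : ContDiff ℝ 1 (fun p : Sp => p.2.2 ^ 2))
  have e2 : ContDiff ℝ 1 (fun p : Sp => CAL_cut c d (nq (pr p))) := (CAL_cut_contDiff _ _).comp CAL_nqpr_contDiff
  have e3 : ContDiff ℝ 1 (fun p : Sp => CAL_h τ H a b (nq (pr p))) :=
    CAL_h_contDiff P τ CAL_nqpr_contDiff fun q => CAL_nq_nonneg _
  have e4 : ContDiff ℝ 1 (CAL_S m' η) := CAL_S_contDiff hm η
  have e5 : ContDiff ℝ 1 (fun p : Sp => p.1) := by fun_prop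
  have e6 : ContDiff ℝ 1 (fun p : Sp => p.2.1) := by fun_prop
  have oa := CAL_out (F := (CAL_Y τ H a b c d C η m').a) (d := d) (C := C) fun p hp =>
    (CAL_zero_out P τ C η m' p hp).1
  have ob := CAL_out (F := (CAL_Y τ H a b c d C η m').b) (d := d) (C := C) fun p hp =>
    (CAL_zero_out P τ C η m' p hp).2.1
  have oc := CAL_out (F := (CAL_Y τ H a b c d C η m').c) (d := d) (C := C) fun p hp =>
    (CAL_zero_out P τ C η m' p hp).2.2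
  exact
    { ca := e1.mul ((contDiff_const.mul (e2.mul e5)).sub (((e4.mul e3).mul contDiff_const).mul e6))
      cb := e1.mul ((contDiff_const.mul (e2.mul e6)).add (((e4.mul e3).mul contDiff_const).mul e5))
      cc := e1.mul (e4.mul e3)
      sa := oa.1
      sb := ob.1
      sc := oc.1
      ia := oa.2.trans (CAL_K_space P C)
      ib := ob.2.trans (CAL_K_space P C)
      ic := oc.2.trans (CAL_K_space P C) }

theorem CAL_Y_adm {κ H a b c d : ℝ} (P : CAL_Par κ H a b c d) (τ C η : ℝ) {m' : ℝ × ℝ → ℝ}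
    (hm : ContDiff ℝ 1 m') : Adm κ (CAL_Y τ H a b c d C η m') := by
  refine { CAL_Y_C1c P τ C η hm with le := ?_ }
  intro p
  by_cases hp : p ∈ CAL_K d C
  swap
  · obtain ⟨h1, h2, h3⟩ := CAL_zero_out P τ C η m' p hp
    rw [h1, h2, h3]
    norm_num
  have hw := P.hw hp.1
  have hk := CAL_kk_sq τ (CAL_nq_nonneg (pr p)) hw
  have hS := CAL_S_sq m' η p
  have w0 := CAL_nq_nonneg (pr p)
  set X := CAL_cut (C ^ 2) (C ^ 2 + 1) (p.2.2 ^ 2) with hX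
  have X0 : 0 ≤ X := CAL_cut_nonneg _ _ _
  have X1 : X ≤ 1 := CAL_cut_le_one _ _ _
  set Z := CAL_cut c d (nq (pr p)) with hZ
  have Z0 : 0 ≤ Z := CAL_cut_nonneg _ _ _
  have Z1 : Z ≤ 1 := CAL_cut_le_one _ _ _
  set A := CAL_cut a b (nq (pr p)) with hA
  have A0 : 0 ≤ A := CAL_cut_nonneg _ _ _
  have A1 : A ≤ 1 := CAL_cut_le_one _ _ _
  set k := kk τ H (nq (pr p)) with hkk
  set S := CAL_S m' η p with hSS
  have hwd : nq (pr p) = p.1 ^ 2 + p.2.1 ^ 2 := rfl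
  set w := nq (pr p) with hwdef
  have e1 : (CAL_Y τ H a b c d C η m').a p = X * (H * (Z * p.1) - S * (A * k) * τ * p.2.1) := rfl
  have e2 : (CAL_Y τ H a b c d C η m').b p = X * (H * (Z * p.2.1) + S * (A * k) * τ * p.1) := rfl
  have e3 : (CAL_Y τ H a b c d C η m').c p = X * (S * (A * k)) := rfl
  rw [e1, e2, e3]
  have e4 : (X * (H * (Z * p.1) - S * (A * k) * τ * p.2.1)) ^ 2 + (X * (H * (Z * p.2.1) + S * (A * k) * τ * p.1)) ^ 2 +
      (X * (S * (A * k))) ^ 2 = X ^ 2 * (Z ^ 2 * (H ^ 2 * w) + S ^ 2 * (A ^ 2 * (1 - H ^ 2 * w))) := by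
    rw [← hk, hwd]
    ring
  rw [e4]
  have X2 : X ^ 2 ≤ 1 := pow_le_one₀ X0 X1
  have Z2 : Z ^ 2 ≤ 1 := pow_le_one₀ Z0 Z1
  have A2 : A ^ 2 ≤ 1 := pow_le_one₀ A0 A1
  have H1 : 0 ≤ H ^ 2 * w := by positivity
  have f1 : Z ^ 2 * (H ^ 2 * w) ≤ H ^ 2 * w := mul_le_of_le_one_left H1 Z2
  have f2 : A ^ 2 * (1 - H ^ 2 * w) ≤ 1 - H ^ 2 * w := mul_le_of_le_one_left (by linarith) A2
  have f3 : S ^ 2 * (A ^ 2 * (1 - H ^ 2 * w)) ≤ A ^ 2 * (1 - H ^ 2 * w) :=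
    mul_le_of_le_one_left (mul_nonneg (sq_nonneg _) (by linarith)) hS
  have f4 : 0 ≤ Z ^ 2 * (H ^ 2 * w) + S ^ 2 * (A ^ 2 * (1 - H ^ 2 * w)) := by
    have : 0 ≤ 1 - H ^ 2 * w := by linarith
    positivity
  calc X ^ 2 * (Z ^ 2 * (H ^ 2 * w) + S ^ 2 * (A ^ 2 * (1 - H ^ 2 * w)))
      ≤ Z ^ 2 * (H ^ 2 * w) + S ^ 2 * (A ^ 2 * (1 - H ^ 2 * w)) := mul_le_of_le_one_left f4 X2
    _ ≤ 1 := by linarith

end Pool.Agent.helper75.IQ
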