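import Pool.Agent.helper75.IQ.CAL2

/-!
Row iq:CAL (MP_84f457_gt), part 3: integrals over the plane.
-/

set_option autoImplicit false

namespace Pool.Agent.helper75.IQ

open MeasureTheory Set Filter Topology

theorem CAL_disc_compact (b : ℝ) : IsCompact {q : ℝ × ℝ | nq q ≤ b} := by
  have h0 : IsCompact ((Icc (-(b + 1)) (b + 1)) ×ˢ (Icc (-(b + 1)) (b + 1)) : Set (ℝ × ℝ)) :=
    isCompact_Icc.prod isCompact_Icc
  refine h0.of_isClosed_subset (isClosed_le CAL_nq_contDiff.continuous continuous_const) ?_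
  rintro ⟨x, y⟩ h1
  have h1' : x ^ 2 + y ^ 2 ≤ b := h1
  refine ⟨⟨?_, ?_⟩, ⟨?_, ?_⟩⟩ <;> simp only <;>
    nlinarith [sq_nonneg (x - 1), sq_nonneg (x + 1), sq_nonneg (y - 1), sq_nonneg (y + 1), sq_nonneg x, sq_nonneg y]

theorem CAL_supp {F : ℝ × ℝ → ℝ} {b : ℝ} (h : ∀ q, b < nq q → F q = 0) : HasCompactSupport F :=
  HasCompactSupport.intro (CAL_disc_compact b) fun q hq => h q (not_le.1 hq)

theorem CAL_fderiv_nq {g : ℝ → ℝ} {q : ℝ × ℝ} (hg : DifferentiableAt ℝ g (nq q)) (v : ℝ × ℝ) :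
    fderiv ℝ (fun q => g (nq q)) q v = deriv g (nq q) * (2 * q.1 * v.1 + 2 * q.2 * v.2) := by
  have h1 : HasFDerivAt nq (((2 * q.1) • ContinuousLinearMap.fst ℝ ℝ ℝ) +
      ((2 * q.2) • ContinuousLinearMap.snd ℝ ℝ ℝ)) q := by
    have a1 : HasFDerivAt (fun q : ℝ × ℝ => q.1) (ContinuousLinearMap.fst ℝ ℝ ℝ) q := hasFDerivAt_fst
    have a2 : HasFDerivAt (fun q : ℝ × ℝ => q.2) (ContinuousLinearMap.snd ℝ ℝ ℝ) q := hasFDerivAt_snd
    have a3 := (a1.pow 2).add (a2.pow 2)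
    refine a3.congr_fderiv ?_
    ext <;> simp
  have h2 := (hg.hasDerivAt.comp_hasFDerivAt q h1).fderiv
  have h3 : (g ∘ nq) = fun q => g (nq q) := rfl
  rw [h3] at h2
  rw [h2]
  simp
  ring

/-- the integral of a rotationally symmetric function times the angular derivative is zero -/
theorem CAL_curl {g : ℝ → ℝ} {b : ℝ} (hg : ContDiff ℝ 1 (fun q : ℝ × ℝ => g (nq q)))
    (hd : ∀ w, 0 ≤ w → DifferentiableAt ℝ g w) (hz : ∀ w, b ≤ w → g w = 0) {m' : ℝ × ℝ → ℝ}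
    (hm : ContDiff ℝ 1 m') :
    ∫ q : ℝ × ℝ, g (nq q) * (q.2 * fderiv ℝ m' q (1, 0) - q.1 * fderiv ℝ m' q (0, 1)) = 0 := by
  have c1 : Continuous (fun q : ℝ × ℝ => fderiv ℝ m' q (1, 0)) := (hm.continuous_fderiv one_ne_zero).clm_apply
    continuous_const
  have c2 : Continuous (fun q : ℝ × ℝ => fderiv ℝ m' q (0, 1)) := (hm.continuous_fderiv one_ne_zero).clm_apply
    continuous_const
  have cg : Continuous (fun q : ℝ × ℝ => g (nq q)) := hg.continuous
  have cm : Continuous m' := hm.continuous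
  have hz' : ∀ q : ℝ × ℝ, b < nq q → g (nq q) = 0 := fun q hq => hz _ hq.le
  have F1 : ContDiff ℝ 1 (fun q : ℝ × ℝ => g (nq q) * q.2) := hg.mul contDiff_snd
  have F2 : ContDiff ℝ 1 (fun q : ℝ × ℝ => g (nq q) * q.1) := hg.mul contDiff_fst
  have z1 : HasCompactSupport (fun q : ℝ × ℝ => g (nq q) * q.2) := CAL_supp (b := b) fun q hq => by
    rw [hz' q hq, zero_mul]
  have z2 : HasCompactSupport (fun q : ℝ × ℝ => g (nq q) * q.1) := CAL_supp (b := b) fun q hq => by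
    rw [hz' q hq, zero_mul]
  have d1 : Continuous (fun q : ℝ × ℝ => fderiv ℝ (fun q : ℝ × ℝ => g (nq q) * q.2) q (1, 0)) :=
    (F1.continuous_fderiv one_ne_zero).clm_apply continuous_const
  have d2 : Continuous (fun q : ℝ × ℝ => fderiv ℝ (fun q : ℝ × ℝ => g (nq q) * q.1) q (0, 1)) :=
    (F2.continuous_fderiv one_ne_zero).clm_apply continuous_const
  have e1 : ∀ q : ℝ × ℝ, fderiv ℝ (fun q : ℝ × ℝ => g (nq q) * q.2) q (1, 0) =
      deriv g (nq q) * (2 * q.1) * q.2 := by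
    intro q
    have h1 : fderiv ℝ (fun q : ℝ × ℝ => g (nq q) * q.2) q =
        g (nq q) • fderiv ℝ (fun q : ℝ × ℝ => q.2) q + q.2 • fderiv ℝ (fun q : ℝ × ℝ => g (nq q)) q :=
      fderiv_fun_mul (hg.differentiable one_ne_zero q) differentiableAt_snd
    rw [h1]
    have h2 : fderiv ℝ (fun q : ℝ × ℝ => q.2) q = ContinuousLinearMap.snd ℝ ℝ ℝ := fderiv_snd
    rw [h2]
    show g (nq q) * (0 : ℝ) + q.2 * fderiv ℝ (fun q : ℝ × ℝ => g (nq q)) q (1, 0) = _
    rw [CAL_fderiv_nq (hd _ (CAL_nq_nonneg q))]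
    ring
  have e2 : ∀ q : ℝ × ℝ, fderiv ℝ (fun q : ℝ × ℝ => g (nq q) * q.1) q (0, 1) =
      deriv g (nq q) * (2 * q.1) * q.2 := by
    intro q
    have h1 : fderiv ℝ (fun q : ℝ × ℝ => g (nq q) * q.1) q =
        g (nq q) • fderiv ℝ (fun q : ℝ × ℝ => q.1) q + q.1 • fderiv ℝ (fun q : ℝ × ℝ => g (nq q)) q :=
      fderiv_fun_mul (hg.differentiable one_ne_zero q) differentiableAt_fst
    rw [h1]
    have h2 : fderiv ℝ (fun q : ℝ × ℝ => q.1) q = ContinuousLinearMap.fst ℝ ℝ ℝ := fderiv_fst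
    rw [h2]
    show g (nq q) * (0 : ℝ) + q.1 * fderiv ℝ (fun q : ℝ × ℝ => g (nq q)) q (0, 1) = _
    rw [CAL_fderiv_nq (hd _ (CAL_nq_nonneg q))]
    ring
  have z1' := (z1.fderiv_apply (𝕜 := ℝ) (1, 0))
  have z2' := (z2.fderiv_apply (𝕜 := ℝ) (0, 1))
  have i1 : Integrable (fun q : ℝ × ℝ => (g (nq q) * q.2) * fderiv ℝ m' q (1, 0)) :=
    ((cg.mul continuous_snd).mul c1).integrable_of_hasCompactSupport (z1.mul_right)
  have i2 : Integrable (fun q : ℝ × ℝ => (g (nq q) * q.1) * fderiv ℝ m' q (0, 1)) :=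
    ((cg.mul continuous_fst).mul c2).integrable_of_hasCompactSupport (z2.mul_right)
  have i3 : Integrable (fun q : ℝ × ℝ => fderiv ℝ (fun q : ℝ × ℝ => g (nq q) * q.2) q (1, 0) * m' q) :=
    (d1.mul cm).integrable_of_hasCompactSupport z1'.mul_right
  have i4 : Integrable (fun q : ℝ × ℝ => fderiv ℝ (fun q : ℝ × ℝ => g (nq q) * q.1) q (0, 1) * m' q) :=
    (d2.mul cm).integrable_of_hasCompactSupport z2'.mul_right
  have i5 : Integrable (fun q : ℝ × ℝ => (g (nq q) * q.2) * m' q) :=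
    ((cg.mul continuous_snd).mul cm).integrable_of_hasCompactSupport (z1.mul_right)
  have i6 : Integrable (fun q : ℝ × ℝ => (g (nq q) * q.1) * m' q) :=
    ((cg.mul continuous_fst).mul cm).integrable_of_hasCompactSupport (z2.mul_right)
  have p1 := integral_mul_fderiv_eq_neg_fderiv_mul_of_integrable (𝕜 := ℝ) (v := ((1, 0) : ℝ × ℝ)) i3 i1 i5
    (fun q _ => F1.differentiable one_ne_zero q) (fun q _ => hm.differentiable one_ne_zero q)
  have p2 := integral_mul_fderiv_eq_neg_fderiv_mul_of_integrable (𝕜 := ℝ) (v := ((0, 1) : ℝ × ℝ)) i4 i2 i6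
    (fun q _ => F2.differentiable one_ne_zero q) (fun q _ => hm.differentiable one_ne_zero q)
  have p3 : ∫ q : ℝ × ℝ, g (nq q) * (q.2 * fderiv ℝ m' q (1, 0) - q.1 * fderiv ℝ m' q (0, 1)) =
      (∫ q : ℝ × ℝ, (g (nq q) * q.2) * fderiv ℝ m' q (1, 0)) -
        ∫ q : ℝ × ℝ, (g (nq q) * q.1) * fderiv ℝ m' q (0, 1) := by
    rw [← integral_sub i1 i2]
    refine integral_congr_ae (Eventually.of_forall fun q => ?_)
    simp only
    ring
  rw [p3, p1, p2]
  simp only [e1, e2]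
  ring

/-- radial integrals -/
theorem CAL_radial (hPOL : POL_stmt) {G : ℝ → ℝ} (hG : ContinuousOn G (Ici 0)) :
    ∫ q : ℝ × ℝ, G (nq q) = Real.pi * ∫ w in Ioi (0 : ℝ), G w := by
  have h0 : Measurable nq := CAL_nq_contDiff.continuous.measurable
  have h1 : (∫ q : ℝ × ℝ, G (nq q)) = ∫ w, G w ∂(Measure.map nq volume) := by
    refine (integral_map h0.aemeasurable ?_).symm
    rw [hPOL]
    refine AEStronglyMeasurable.smul_measure ?_ _
    exact (hG.mono Ioi_subset_Ici_self).aestronglyMeasurable measurableSet_Ioi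
  rw [h1, hPOL, integral_smul_measure, ENNReal.toReal_ofReal Real.pi_pos.le]
  rfl

end Pool.Agent.helper75.IQ
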