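import Pool.Agent.helper75.IQ.CAL3

/-!
Row iq:CAL (MP_84f457_gt), part 4: the integral of the divergence.
-/

set_option autoImplicit false

namespace Pool.Agent.helper75.IQ

open MeasureTheory Set Filter Topology

/-! ### the derivative of the side function -/

noncomputable def CAL_D (m' : ℝ × ℝ → ℝ) (η : ℝ) (p : Sp) : ℝ :=
  2 * (deriv Real.smoothTransition ((p.2.2 - m' (pr p)) / η) / η)

theorem CAL_smooth_deriv_cont : Continuous (deriv Real.smoothTransition) :=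
  (Real.smoothTransition.contDiff (n := 1)).continuous_deriv le_rfl

theorem CAL_smooth_hasDeriv (u : ℝ) : HasDerivAt Real.smoothTransition (deriv Real.smoothTransition u) u :=
  ((Real.smoothTransition.contDiff (n := 1)).differentiable one_ne_zero u).hasDerivAt

theorem CAL_smooth_deriv_zero {u : ℝ} (hu : u < 0 ∨ 1 < u) : deriv Real.smoothTransition u = 0 := by
  rcases hu with hu | hu
  · have h1 : Real.smoothTransition =ᶠ[𝓝 u] fun _ => (0 : ℝ) := by
      filter_upwards [gt_mem_nhds hu] with v hv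
      exact Real.smoothTransition.zero_of_nonpos (le_of_lt hv)
    rw [h1.deriv_eq, deriv_const]
  · have h1 : Real.smoothTransition =ᶠ[𝓝 u] fun _ => (1 : ℝ) := by
      filter_upwards [lt_mem_nhds hu] with v hv
      exact Real.smoothTransition.one_of_one_le (le_of_lt hv)
    rw [h1.deriv_eq, deriv_const]

theorem CAL_D_cont {m' : ℝ × ℝ → ℝ} (hm : ContDiff ℝ 1 m') (η : ℝ) : Continuous (CAL_D m' η) := by
  unfold CAL_D
  have h1 : Continuous (fun p : Sp => m' (pr p)) := (hm.comp CAL_pr_contDiff).continuous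
  have h2 : Continuous (fun p : Sp => (p.2.2 - m' (pr p)) / η) :=
    ((by fun_prop : Continuous (fun p : Sp => p.2.2)).sub h1).div_const _
  exact continuous_const.mul ((CAL_smooth_deriv_cont.comp h2).div_const _)

theorem CAL_D_zero {m' : ℝ × ℝ → ℝ} {η : ℝ} (hη : 0 < η) {p : Sp}
    (hp : p.2.2 ∉ Icc (m' (pr p)) (m' (pr p) + η)) : CAL_D m' η p = 0 := by
  unfold CAL_D
  rw [CAL_smooth_deriv_zero, zero_div, mul_zero]
  rcases lt_or_ge p.2.2 (m' (pr p)) with h | h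
  · left
    exact div_neg_of_neg_of_pos (by linarith) hη
  · right
    rw [one_lt_div hη]
    by_contra hc
    exact hp ⟨h, by linarith⟩

theorem CAL_S_t {m' : ℝ × ℝ → ℝ} {η : ℝ} (x y t : ℝ) :
    HasDerivAt (fun s => CAL_S m' η (x, y, s)) (CAL_D m' η (x, y, t)) t := by
  have h1 : HasDerivAt (fun s : ℝ => (s - m' (x, y)) / η) (1 / η) t := by
    simpa using ((hasDerivAt_id t).sub_const (m' (x, y))).div_const η
  have h2 := CAL_comp (g := fun s : ℝ => (s - m' (x, y)) / η) (CAL_smooth_hasDeriv ((t - m' (x, y)) / η)) h1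
  have h3 := (h2.const_mul 2).sub_const 1
  refine h3.congr_deriv ?_
  show _ = 2 * (deriv Real.smoothTransition ((t - m' (x, y)) / η) / η)
  ring

theorem CAL_m_x {m' : ℝ × ℝ → ℝ} (hm : ContDiff ℝ 1 m') (x y : ℝ) :
    HasDerivAt (fun s => m' (s, y)) (fderiv ℝ m' (x, y) (1, 0)) x := by
  have h1 : HasDerivAt (fun s : ℝ => ((s, y) : ℝ × ℝ)) (1, 0) x := (hasDerivAt_id x).prodMk (hasDerivAt_const x y)
  exact (hm.differentiable one_ne_zero (x, y)).hasFDerivAt.comp_hasDerivAt x h1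

theorem CAL_m_y {m' : ℝ × ℝ → ℝ} (hm : ContDiff ℝ 1 m') (x y : ℝ) :
    HasDerivAt (fun s => m' (x, s)) (fderiv ℝ m' (x, y) (0, 1)) y := by
  have h1 : HasDerivAt (fun s : ℝ => ((x, s) : ℝ × ℝ)) (0, 1) y := (hasDerivAt_const y x).prodMk (hasDerivAt_id y)
  exact (hm.differentiable one_ne_zero (x, y)).hasFDerivAt.comp_hasDerivAt y h1

theorem CAL_S_x {m' : ℝ × ℝ → ℝ} (hm : ContDiff ℝ 1 m') {η : ℝ} (x y t : ℝ) :
    HasDerivAt (fun s => CAL_S m' η (s, y, t)) (-(CAL_D m' η (x, y, t) * fderiv ℝ m' (x, y) (1, 0))) x := by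
  have h1 : HasDerivAt (fun s : ℝ => (t - m' (s, y)) / η) (-fderiv ℝ m' (x, y) (1, 0) / η) x := by
    simpa using ((CAL_m_x hm x y).const_sub t).div_const η
  have h2 := CAL_comp (g := fun s : ℝ => (t - m' (s, y)) / η) (CAL_smooth_hasDeriv ((t - m' (x, y)) / η)) h1
  have h3 := (h2.const_mul 2).sub_const 1
  refine h3.congr_deriv ?_
  show _ = -(2 * (deriv Real.smoothTransition ((t - m' (x, y)) / η) / η) * _)
  ring

theorem CAL_S_y {m' : ℝ × ℝ → ℝ} (hm : ContDiff ℝ 1 m') {η : ℝ} (x y t : ℝ) :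
    HasDerivAt (fun s => CAL_S m' η (x, s, t)) (-(CAL_D m' η (x, y, t) * fderiv ℝ m' (x, y) (0, 1))) y := by
  have h1 : HasDerivAt (fun s : ℝ => (t - m' (x, s)) / η) (-fderiv ℝ m' (x, y) (0, 1) / η) y := by
    simpa using ((CAL_m_y hm x y).const_sub t).div_const η
  have h2 := CAL_comp (g := fun s : ℝ => (t - m' (x, s)) / η) (CAL_smooth_hasDeriv ((t - m' (x, y)) / η)) h1
  have h3 := (h2.const_mul 2).sub_const 1
  refine h3.congr_deriv ?_
  show _ = -(2 * (deriv Real.smoothTransition ((t - m' (x, y)) / η) / η) * _)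
  ring

theorem CAL_D_int {m' : ℝ × ℝ → ℝ} (hm : ContDiff ℝ 1 m') {η : ℝ} (hη : 0 < η) (x y : ℝ) :
    ∫ t, CAL_D m' η (x, y, t) = 2 := by
  have hc : Continuous (fun t : ℝ => CAL_D m' η (x, y, t)) := (CAL_D_cont hm η).comp (by fun_prop)
  have hs : HasCompactSupport (fun t : ℝ => CAL_D m' η (x, y, t)) :=
    HasCompactSupport.intro (isCompact_Icc (a := m' (x, y)) (b := m' (x, y) + η)) fun t ht => CAL_D_zero hη ht
  have h1 : Tendsto (fun t : ℝ => CAL_S m' η (x, y, t)) atBot (𝓝 (-1)) := by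
    refine tendsto_const_nhds.congr' ?_
    filter_upwards [eventually_le_atBot (m' (x, y))] with t ht
    exact (CAL_S_low hη ht).symm
  have h2 : Tendsto (fun t : ℝ => CAL_S m' η (x, y, t)) atTop (𝓝 1) := by
    refine tendsto_const_nhds.congr' ?_
    filter_upwards [eventually_ge_atTop (m' (x, y) + η)] with t ht
    exact (CAL_S_up hη ht).symm
  rw [integral_of_hasDerivAt_of_tendsto (fun t => CAL_S_t x y t) (hc.integrable_of_hasCompactSupport hs) h1 h2]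
  norm_num

/-! ### the divergence on the cylinder -/

noncomputable def CAL_Q (κ τ H a b : ℝ) (m' : ℝ × ℝ → ℝ) (q : ℝ × ℝ) : ℝ :=
  CAL_h τ H a b (nq q) * (lam κ (nq q) * τ * (q.2 * fderiv ℝ m' q (1, 0) - q.1 * fderiv ℝ m' q (0, 1)) +
    lam κ (nq q) ^ 2 * (1 + τ ^ 2 * nq q))

theorem CAL_dv {κ H a b c d : ℝ} (P : CAL_Par κ H a b c d) (τ C η : ℝ) {m' : ℝ × ℝ → ℝ} (hm : ContDiff ℝ 1 m')
    {p : Sp} (h1 : nq (pr p) < c) (h2 : p.2.2 ^ 2 < C ^ 2) :
    dv κ τ (CAL_Y τ H a b c d C η m') p = 2 * H * lam κ (nq (pr p)) ^ 2 + CAL_D m' η p * CAL_Q κ τ H a b m' (pr p) := by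
  obtain ⟨x, y, t⟩ := p
  have hC := CAL_Y_C1c P τ C η hm
  have c1 : Continuous (fun p : Sp => nq (pr p)) := CAL_nqpr_contDiff.continuous
  have c2 : Continuous (fun p : Sp => p.2.2 ^ 2) := by fun_prop
  have n1 : ∀ᶠ q : Sp in 𝓝 (x, y, t), nq (pr q) < c := c1.continuousAt.eventually (gt_mem_nhds h1)
  have n2 : ∀ᶠ q : Sp in 𝓝 (x, y, t), q.2.2 ^ 2 < C ^ 2 := c2.continuousAt.eventually (gt_mem_nhds h2)
  have hw : 1 + κ / 4 * (x ^ 2 + y ^ 2) ≠ 0 := (P.kw (h1.le.trans P.cd.le)).ne'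
  have hh : HasDerivAt (CAL_h τ H a b) (deriv (CAL_h τ H a b) (x ^ 2 + y ^ 2)) (x ^ 2 + y ^ 2) := by
    refine DifferentiableAt.hasDerivAt ?_
    exact CAL_cutmul_diff P.ab P.bc (fun w h0 hw => CAL_kk_contDiffAt τ h0 (P.hw (hw.le.trans P.cd.le)))
      (CAL_nq_nonneg (x, y))
  refine CAL_dv_aux hw hh (CAL_S_x hm x y t) (CAL_S_y hm x y t) (CAL_S_t x y t)
    (hC.ca.differentiable one_ne_zero _) (hC.cb.differentiable one_ne_zero _) (hC.cc.differentiable one_ne_zero _)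
    ?_ ?_ ?_
  · filter_upwards [n1, n2] with q q1 q2
    simp only [CAL_Y, CAL_cut_one P.cd q1.le, CAL_cut_one (by linarith : C ^ 2 < C ^ 2 + 1) q2.le, one_mul]
  · filter_upwards [n1, n2] with q q1 q2
    simp only [CAL_Y, CAL_cut_one P.cd q1.le, CAL_cut_one (by linarith : C ^ 2 < C ^ 2 + 1) q2.le, one_mul]
  · filter_upwards [n1, n2] with q q1 q2
    simp only [CAL_Y, CAL_cut_one (by linarith : C ^ 2 < C ^ 2 + 1) q2.le, one_mul]

/-! ### the integral of `CAL_Q` -/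

theorem CAL_f1 {κ H a b c d : ℝ} (P : CAL_Par κ H a b c d) (τ w : ℝ) (h0 : 0 ≤ w) (hw : w < c) :
    ContDiffAt ℝ 1 (fun w => kk τ H w * (lam κ w * τ)) w :=
  (CAL_kk_contDiffAt τ h0 (P.hw (hw.le.trans P.cd.le))).mul
    ((CAL_lam_contDiffAt (P.kw (hw.le.trans P.cd.le)).ne').mul contDiffAt_const)

theorem CAL_f2 {κ H a b c d : ℝ} (P : CAL_Par κ H a b c d) (τ w : ℝ) (h0 : 0 ≤ w) (hw : w < c) :
    ContDiffAt ℝ 1 (fun w => kk τ H w * (lam κ w ^ 2 * (1 + τ ^ 2 * w))) w :=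
  (CAL_kk_contDiffAt τ h0 (P.hw (hw.le.trans P.cd.le))).mul
    (((CAL_lam_contDiffAt (P.kw (hw.le.trans P.cd.le)).ne').pow 2).mul (by fun_prop))

theorem CAL_Q_eq (κ τ H a b : ℝ) (m' : ℝ × ℝ → ℝ) (q : ℝ × ℝ) : CAL_Q κ τ H a b m' q =
    CAL_cut a b (nq q) * (kk τ H (nq q) * (lam κ (nq q) * τ)) *
      (q.2 * fderiv ℝ m' q (1, 0) - q.1 * fderiv ℝ m' q (0, 1)) +
    CAL_cut a b (nq q) * (kk τ H (nq q) * (lam κ (nq q) ^ 2 * (1 + τ ^ 2 * nq q))) := by
  unfold CAL_Q CAL_h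
  ring

theorem CAL_Q_cont {κ H a b c d : ℝ} (P : CAL_Par κ H a b c d) (τ : ℝ) {m' : ℝ × ℝ → ℝ} (hm : ContDiff ℝ 1 m') :
    Continuous (CAL_Q κ τ H a b m') := by
  have e : CAL_Q κ τ H a b m' = fun q => CAL_cut a b (nq q) * (kk τ H (nq q) * (lam κ (nq q) * τ)) *
      (q.2 * fderiv ℝ m' q (1, 0) - q.1 * fderiv ℝ m' q (0, 1)) +
    CAL_cut a b (nq q) * (kk τ H (nq q) * (lam κ (nq q) ^ 2 * (1 + τ ^ 2 * nq q))) :=
    funext fun q => CAL_Q_eq κ τ H a b m' q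
  rw [e]
  have c1 : Continuous (fun q : ℝ × ℝ => fderiv ℝ m' q (1, 0)) := (hm.continuous_fderiv one_ne_zero).clm_apply
    continuous_const
  have c2 : Continuous (fun q : ℝ × ℝ => fderiv ℝ m' q (0, 1)) := (hm.continuous_fderiv one_ne_zero).clm_apply
    continuous_const
  have c3 := (CAL_cutmul_contDiff P.ab P.bc CAL_nq_contDiff CAL_nq_nonneg (CAL_f1 P τ)).continuous
  have c4 := (CAL_cutmul_contDiff P.ab P.bc CAL_nq_contDiff CAL_nq_nonneg (CAL_f2 P τ)).continuous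
  exact (c3.mul ((continuous_snd.mul c1).sub (continuous_fst.mul c2))).add c4

theorem CAL_Q_zero {κ H a b : ℝ} (τ : ℝ) (m' : ℝ × ℝ → ℝ) (hab : a < b) {q : ℝ × ℝ} (hq : b ≤ nq q) :
    CAL_Q κ τ H a b m' q = 0 := by
  unfold CAL_Q
  rw [CAL_h_zero τ H hab hq, zero_mul]

theorem CAL_Q_int (hPOL : POL_stmt) {κ H a b c d : ℝ} (P : CAL_Par κ H a b c d) (τ : ℝ) {m' : ℝ × ℝ → ℝ}
    (hm : ContDiff ℝ 1 m') :
    Real.pi * ∫ w in (0 : ℝ)..a, √(1 - H ^ 2 * w) * GG κ τ w ≤ ∫ q, CAL_Q κ τ H a b m' q := by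
  have d3 := CAL_cutmul_contDiff P.ab P.bc CAL_nq_contDiff CAL_nq_nonneg (CAL_f1 P τ)
  have d4 := CAL_cutmul_contDiff P.ab P.bc CAL_nq_contDiff CAL_nq_nonneg (CAL_f2 P τ)
  have hcurl := CAL_curl (g := fun w => CAL_cut a b w * (kk τ H w * (lam κ w * τ))) (b := b) d3
    (fun w hw => CAL_cutmul_diff P.ab P.bc (CAL_f1 P τ) hw)
    (fun w hw => by simp only [CAL_cut_zero P.ab hw, zero_mul]) hm
  have c1 : Continuous (fun q : ℝ × ℝ => fderiv ℝ m' q (1, 0)) := (hm.continuous_fderiv one_ne_zero).clm_apply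
    continuous_const
  have c2 : Continuous (fun q : ℝ × ℝ => fderiv ℝ m' q (0, 1)) := (hm.continuous_fderiv one_ne_zero).clm_apply
    continuous_const
  have i1 : Integrable (fun q : ℝ × ℝ => CAL_cut a b (nq q) * (kk τ H (nq q) * (lam κ (nq q) * τ)) *
      (q.2 * fderiv ℝ m' q (1, 0) - q.1 * fderiv ℝ m' q (0, 1))) := by
    refine Continuous.integrable_of_hasCompactSupport
      (d3.continuous.mul ((continuous_snd.mul c1).sub (continuous_fst.mul c2))) (CAL_supp (b := b) fun q hq => ?_)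
    rw [CAL_cut_zero P.ab hq.le]
    ring
  have i2 : Integrable (fun q : ℝ × ℝ =>
      CAL_cut a b (nq q) * (kk τ H (nq q) * (lam κ (nq q) ^ 2 * (1 + τ ^ 2 * nq q)))) := by
    refine d4.continuous.integrable_of_hasCompactSupport (CAL_supp (b := b) fun q hq => ?_)
    rw [CAL_cut_zero P.ab hq.le]
    ring
  have e1 : ∫ q, CAL_Q κ τ H a b m' q = ∫ q : ℝ × ℝ,
      CAL_cut a b (nq q) * (kk τ H (nq q) * (lam κ (nq q) ^ 2 * (1 + τ ^ 2 * nq q))) := by
    have h1 : ∫ q, CAL_Q κ τ H a b m' q = ∫ q : ℝ × ℝ,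
        (CAL_cut a b (nq q) * (kk τ H (nq q) * (lam κ (nq q) * τ)) *
          (q.2 * fderiv ℝ m' q (1, 0) - q.1 * fderiv ℝ m' q (0, 1)) +
        CAL_cut a b (nq q) * (kk τ H (nq q) * (lam κ (nq q) ^ 2 * (1 + τ ^ 2 * nq q)))) :=
      integral_congr_ae (Eventually.of_forall fun q => CAL_Q_eq κ τ H a b m' q)
    rw [h1, integral_add i1 i2, hcurl, zero_add]
  set G : ℝ → ℝ := fun w => CAL_cut a b w * (kk τ H w * (lam κ w ^ 2 * (1 + τ ^ 2 * w))) with hG
  have hGc : ContinuousOn G (Ici 0) := fun w hw =>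
    (CAL_cutmul_diff P.ab P.bc (CAL_f2 P τ) hw).continuousAt.continuousWithinAt
  have e2 : (∫ q : ℝ × ℝ, CAL_cut a b (nq q) * (kk τ H (nq q) * (lam κ (nq q) ^ 2 * (1 + τ ^ 2 * nq q)))) =
      Real.pi * ∫ w in Ioi (0 : ℝ), G w := CAL_radial hPOL hGc
  rw [e1, e2]
  refine mul_le_mul_of_nonneg_left ?_ Real.pi_pos.le
  have hGz : ∀ w, b ≤ w → G w = 0 := fun w hw => by simp only [hG, CAL_cut_zero P.ab hw, zero_mul]
  have hG0 : ∀ w, 0 ≤ w → 0 ≤ G w := by
    intro w hw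
    have h1 : 0 ≤ kk τ H w := div_nonneg (Real.sqrt_nonneg _) (Real.sqrt_nonneg _)
    have h2 := CAL_cut_nonneg a b w
    have h3 : (0 : ℝ) ≤ 1 + τ ^ 2 * w := by positivity
    simp only [hG]
    positivity
  have hGi : IntegrableOn G (Ioi 0) := by
    have h1 : IntegrableOn G (Icc 0 b) := (hGc.mono Icc_subset_Ici_self).integrableOn_compact isCompact_Icc
    have h2 : IntegrableOn G (Ioi b) := by
      refine (integrableOn_zero (μ := volume) (s := Ioi b)).congr_fun (fun w hw => ?_) measurableSet_Ioi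
      exact (hGz w (le_of_lt hw)).symm
    refine (h1.union h2).mono_set ?_
    intro w hw
    rcases le_or_gt w b with h | h
    · exact Or.inl ⟨le_of_lt hw, h⟩
    · exact Or.inr h
  rw [intervalIntegral.integral_of_le P.a0.le]
  have e3 : ∫ w in Ioc 0 a, √(1 - H ^ 2 * w) * GG κ τ w = ∫ w in Ioc 0 a, G w := by
    refine setIntegral_congr_fun measurableSet_Ioc fun w hw => ?_
    have h3 : (0 : ℝ) < 1 + τ ^ 2 * w := by
      have := hw.1
      positivity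
    have h4 : √(1 + τ ^ 2 * w) ≠ 0 := (Real.sqrt_pos.2 h3).ne'
    have h5 : √(1 + τ ^ 2 * w) * √(1 + τ ^ 2 * w) = 1 + τ ^ 2 * w := Real.mul_self_sqrt h3.le
    simp only [hG, CAL_cut_one P.ab hw.2, one_mul, GG, kk]
    generalize √(1 + τ ^ 2 * w) = A at h4 h5 ⊢
    rw [← h5]
    field_simp
  rw [e3]
  refine setIntegral_mono_set hGi ?_ ?_
  · filter_upwards [ae_restrict_mem measurableSet_Ioi] with w hw
    exact hG0 w (le_of_lt hw)
  · exact (Ioc_subset_Ioi_self).eventuallyLE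

end Pool.Agent.helper75.IQ
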