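import Mathlib

/-!
# MP_84f457_gt: isoperimetric regions in the homogeneous spaces `E(κ, τ)`, `κ ≤ 0`: definitions

`E(κ, τ)` is `{(x, y, t) : 1 + κ (x² + y²) / 4 > 0}` (all of `ℝ³` if `κ = 0`) with the Riemannian metric
`λ² (dx² + dy²) + (dt + τ λ (y dx - x dy))²`, `λ = 1 / (1 + κ (x² + y²) / 4)`. The fields `E₁ = λ⁻¹ ∂x - τ y ∂t`,
`E₂ = λ⁻¹ ∂y + τ x ∂t`, `E₃ = ∂t` are an orthonormal frame and the volume is `λ² dx dy dt`.
-/

set_option autoImplicit false

namespace Pool.Agent.helper75.IQ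

open MeasureTheory Set

/-- points `(x, y, t)` -/
abbrev Sp : Type := ℝ × ℝ × ℝ

/-- `x² + y²` -/
def nq (q : ℝ × ℝ) : ℝ := q.1 ^ 2 + q.2 ^ 2

/-- the vertical projection `(x, y, t) ↦ (x, y)` -/
def pr (p : Sp) : ℝ × ℝ := (p.1, p.2.1)

/-- the conformal factor `λ` as a function of `w = x² + y²` -/
noncomputable def lam (κ w : ℝ) : ℝ := (1 + κ / 4 * w)⁻¹

/-- the underlying set of `E(κ, τ)` -/
def space (κ : ℝ) : Set Sp := {p | 0 < 1 + κ / 4 * nq (pr p)}

/-- a vector field `a E₁ + b E₂ + c E₃` -/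
structure VF where
  a : Sp → ℝ
  b : Sp → ℝ
  c : Sp → ℝ

/-- continuously differentiable fields with compact support in `E(κ, τ)` -/
structure C1c (κ : ℝ) (Y : VF) : Prop where
  ca : ContDiff ℝ 1 Y.a
  cb : ContDiff ℝ 1 Y.b
  cc : ContDiff ℝ 1 Y.c
  sa : HasCompactSupport Y.a
  sb : HasCompactSupport Y.b
  sc : HasCompactSupport Y.c
  ia : tsupport Y.a ⊆ space κ
  ib : tsupport Y.b ⊆ space κ
  ic : tsupport Y.c ⊆ space κ

/-- `λ²` times the divergence of the field `Y` -/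
noncomputable def dv (κ τ : ℝ) (Y : VF) (p : Sp) : ℝ :=
  fderiv ℝ (fun q : Sp => lam κ (nq (pr q)) * Y.a q) p (1, 0, 0) +
  fderiv ℝ (fun q : Sp => lam κ (nq (pr q)) * Y.b q) p (0, 1, 0) +
  lam κ (nq (pr p)) ^ 2 * (-(τ * p.2.1) * fderiv ℝ Y.a p (0, 0, 1) +
    τ * p.1 * fderiv ℝ Y.b p (0, 0, 1) + fderiv ℝ Y.c p (0, 0, 1))

/-- the integral of the divergence over `E` -/
noncomputable def TT (κ τ : ℝ) (E : Set Sp) (Y : VF) : ℝ := ∫ p in E, dv κ τ Y p

/-- fields of length at most one -/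
structure Adm (κ : ℝ) (Y : VF) : Prop extends C1c κ Y where
  le : ∀ p, Y.a p ^ 2 + Y.b p ^ 2 + Y.c p ^ 2 ≤ 1

/-- the perimeter (De Giorgi): the supremum of the integrals over `E` of the divergences of the fields of length at
most one; for a region with a piecewise smooth boundary this is the area of the boundary -/
noncomputable def per (κ τ : ℝ) (E : Set Sp) : ENNReal :=
  ⨆ (Y : VF) (_ : Adm κ Y), ENNReal.ofReal (TT κ τ E Y)

/-- the volume -/
noncomputable def vol (κ : ℝ) (E : Set Sp) : ENNReal := ∫⁻ p in E, ENNReal.ofReal (lam κ (nq (pr p)) ^ 2)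

/-- height of the sphere of mean curvature `1 / R` over the points with `x² + y² = w` -/
noncomputable def hgt (κ τ R w : ℝ) : ℝ :=
  (∫ v in w..R ^ 2, lam κ v * √((1 + τ ^ 2 * v) / (R ^ 2 - v))) / 2

/-- the derivative of `hgt` -/
noncomputable def dh (κ τ R w : ℝ) : ℝ := -(lam κ w * √((1 + τ ^ 2 * w) / (R ^ 2 - w))) / 2

/-- the region bounded by the sphere of constant mean curvature `1 / R` -/
def ball (κ τ R : ℝ) : Set Sp := {p | nq (pr p) ≤ R ^ 2 ∧ |p.2.2| ≤ hgt κ τ R (nq (pr p))}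

/-- compact regions -/
def IsRegion (E : Set Sp) : Prop := IsCompact E ∧ closure (interior E) = E

/-- `E` is contained in the vertical cylinder over the disc of radius `r` and its interior contains the graph of a
continuous function over the open disc -/
structure TrapAt (κ r : ℝ) (m : ℝ × ℝ → ℝ) (E : Set Sp) : Prop where
  r0 : 0 < r
  rk : -4 < κ * r ^ 2
  cm : ContinuousOn m {q | nq q < r ^ 2}
  cyl : ∀ p ∈ E, nq (pr p) ≤ r ^ 2
  sec : ∀ q : ℝ × ℝ, nq q < r ^ 2 → ((q.1, q.2, m q) : Sp) ∈ interior E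

/-- vertical translation -/
def sh (c : ℝ) (p : Sp) : Sp := (p.1, p.2.1, p.2.2 + c)

/-! ### One dimensional integrals -/

/-- `√(1 + τ² w) λ(w)²` -/
noncomputable def GG (κ τ w : ℝ) : ℝ := √(1 + τ ^ 2 * w) * lam κ w ^ 2

noncomputable def FF (κ τ r : ℝ) : ℝ := 2 * Real.pi * ∫ w in (0 : ℝ)..r ^ 2, √(1 - w / r ^ 2) * GG κ τ w

/-- the volume of `ball κ τ R` -/
noncomputable def VV (κ τ R : ℝ) : ℝ :=
  Real.pi / R * ∫ w in (0 : ℝ)..R ^ 2, w * GG κ τ w / √(1 - w / R ^ 2)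

/-- the area of the boundary of `ball κ τ R` -/
noncomputable def PP (κ τ R : ℝ) : ℝ := 2 * Real.pi * ∫ w in (0 : ℝ)..R ^ 2, GG κ τ w / √(1 - w / R ^ 2)

/-! ### The calibrating fields -/

noncomputable def kk (τ H w : ℝ) : ℝ := √(1 - H ^ 2 * w) / √(1 + τ ^ 2 * w)

/-- the unit normal of the vertical translates of the upper (`s = 1`) and the lower (`s = -1`) hemisphere of mean
curvature `H` -/
noncomputable def NN (τ H s : ℝ) : VF where
  a p := H * p.1 - s * kk τ H (nq (pr p)) * τ * p.2.1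
  b p := H * p.2.1 + s * kk τ H (nq (pr p)) * τ * p.1
  c p := s * kk τ H (nq (pr p))

/-- `Y + θ Z` -/
def add (Y Z : VF) (θ : ℝ) : VF where
  a p := Y.a p + θ * Z.a p
  b p := Y.b p + θ * Z.b p
  c p := Y.c p + θ * Z.c p

/-- `ψ Y` -/
def mul (ψ : Sp → ℝ) (Y : VF) : VF where
  a p := ψ p * Y.a p
  b p := ψ p * Y.b p
  c p := ψ p * Y.c p

/-- test functions supported in the open cylinder of radius `R`, on the side `s` of the graph of `m` -/
structure Side (R s : ℝ) (m : ℝ × ℝ → ℝ) (ψ : Sp → ℝ) : Prop where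
  c1 : ContDiff ℝ 1 ψ
  cs : HasCompactSupport ψ
  sup : ∀ p ∈ tsupport ψ, nq (pr p) < R ^ 2 ∧ 0 < s * (p.2.2 - m (pr p))

/-- test functions supported in the open cylinder of radius `R` -/
structure Test (R : ℝ) (ψ : Sp → ℝ) : Prop where
  c1 : ContDiff ℝ 1 ψ
  cs : HasCompactSupport ψ
  sup : ∀ p ∈ tsupport ψ, nq (pr p) < R ^ 2

/-- `Con κ τ R s F ψ`: the boundary of `F` is, where the test function `ψ` lives, a union of vertical translates of the
hemisphere, and `F` lies on the right side of it -/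
structure Con (κ τ R s : ℝ) (F : Set Sp) (ψ : Sp → ℝ) : Prop where
  x : ∫ p in F, (fderiv ℝ ψ p (1, 0, 0) + s * (2 * p.1 * dh κ τ R (nq (pr p))) * fderiv ℝ ψ p (0, 0, 1)) = 0
  y : ∫ p in F, (fderiv ℝ ψ p (0, 1, 0) + s * (2 * p.2.1 * dh κ τ R (nq (pr p))) * fderiv ℝ ψ p (0, 0, 1)) = 0
  t : (∀ p, 0 ≤ ψ p) → 0 ≤ s * ∫ p in F, lam κ (nq (pr p)) ^ 2 * fderiv ℝ ψ p (0, 0, 1)

/-- the part of `E` in the open cylinder of radius `R`, together with the part of this cylinder on the other side of the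
graph of `m` -/
def fill (R s : ℝ) (m : ℝ × ℝ → ℝ) (E : Set Sp) : Set Sp :=
  {p | nq (pr p) < R ^ 2 ∧ (s * (p.2.2 - m (pr p)) ≤ 0 ∨ p ∈ E)}

end Pool.Agent.helper75.IQ
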