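import Pool.Agent.helper75.IQ.Spec

/-!
Row iq:FIN (MP_84f457_gt): assembly.
-/

set_option autoImplicit false

namespace Pool.Agent.helper75.IQ

open MeasureTheory Set

theorem FIN (hCMP : CMP_stmt) (hSUR : SUR_stmt) (hBAL : BAL_stmt) (hBVO : BVO_stmt) (hUPB : UPB_stmt)
    (hLOW : LOW_stmt) (hEQD : EQD_stmt) (hEXT : EXT_stmt) (hEQA : EQA_stmt) (hEQF : EQF_stmt) : FIN_stmt := by
  intro κ τ hκ V hV
  obtain ⟨R, hR, hRk, hVV⟩ := hSUR κ τ V hκ hV
  obtain ⟨hreg, htrap⟩ := hBAL κ τ R hκ hR hRk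
  have hvol : vol κ (ball κ τ R) = ENNReal.ofReal V := by rw [hBVO κ τ R hκ hR hRk, hVV]
  have hper_le := hUPB κ τ R hκ hR hRk
  obtain ⟨hid, hVpos, hFF, -, -⟩ := hCMP κ τ R R hκ hR hRk hR hRk
  have hper_ge : ENNReal.ofReal (PP κ τ R) ≤ per κ τ (ball κ τ R) := by
    have h := hLOW κ τ R _ _ hκ hreg.1 htrap
    rw [hvol, ENNReal.toReal_ofReal hV.le, ← hVV, hid] at h
    exact h
  have hper : per κ τ (ball κ τ R) = ENNReal.ofReal (PP κ τ R) := le_antisymm hper_le hper_ge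
  refine ⟨R, hR, hRk, hreg, htrap, hvol, ?_, ?_⟩
  · rw [hper]; exact ENNReal.ofReal_lt_top
  · intro E r m hE hT hvE
    have hV' : (vol κ E).toReal = VV κ τ R := by rw [hvE, ENNReal.toReal_ofReal hV.le, hVV]
    obtain ⟨-, -, -, hle, hlt⟩ := hCMP κ τ r R hκ hT.r0 hT.rk hR hRk
    have hlow := hLOW κ τ r m E hκ hE.1 hT
    rw [hV'] at hlow
    refine ⟨?_, ?_⟩
    · rw [hper]; exact (ENNReal.ofReal_le_ofReal hle).trans hlow
    · intro heq
      have hPP : 0 < PP κ τ R := by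
        rw [← hid]
        have h1 : 0 < 2 / R * VV κ τ R := by positivity
        linarith
      have hrR : r = R := by
        by_contra hne
        have h1 := hlt hne
        have h2 : ENNReal.ofReal (2 / r * VV κ τ R + FF κ τ r) ≤ ENNReal.ofReal (PP κ τ R) := by
          rw [← hper, ← heq]; exact hlow
        have h3 := (ENNReal.ofReal_le_ofReal_iff hPP.le).1 h2
        linarith
      subst hrR
      have hperE : per κ τ E = ENNReal.ofReal (2 / r * (vol κ E).toReal + FF κ τ r) := by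
        rw [heq, hper, hV', hid]
      refine hEQF κ τ r m E hκ hE hT ?_ ?_
      · rw [hvE, hvol]
      · intro s hs
        exact hEQA κ τ r m E hκ hE.1 hT s hs
          (hEXT κ τ r m E hκ hE.1 hT s hs (hEQD κ τ r m E hκ hE.1 hT hperE s hs))

end Pool.Agent.helper75.IQ
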