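import Pool.Agent.helper75.IQ.Defs

/-!
# Project iq (MP_84f457_gt): isoperimetric regions in `E(κ, τ)`, `κ ≤ 0`, in the class of trapped regions

FINAL. For `κ ≤ 0`, all `τ` and all volumes `V > 0` there is `R` such that `ball κ τ R` has volume `V` and, among all
compact regions `E` of volume `V` which are contained in the vertical cylinder over a disc (of any radius `r`,
`κ r² > -4`) and whose interior contains the graph of a continuous function over the open disc, `ball κ τ R` has the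
least boundary area, and every other minimiser is a vertical translate of it. (`E(0, τ)`, `τ ≠ 0`: all left-invariant
metrics of the Heisenberg group; `E(κ, τ)`, `κ < 0`, `τ ≠ 0`: left-invariant metrics of the universal cover of
`SL(2, ℝ)`.)

RULES. Row `iq:XX` is a file `Pool/Agent/<seat>/IQ/XX.lean`, namespace `Pool.Agent.helper75.IQ`, with the theorem
`XX (hYY : YY_stmt) ... : XX_stmt` (hypotheses: only the rows named in the docstring, in this order); auxiliary lemmas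
have the prefix `XX_`. No `convert`, `congr!`, `native_decide`, no double quotes. The docstring contains the proof.

Notation: `w = nq q = x² + y²`, `u = hgt κ τ R (nq q)`, `u_x = 2 x dh`, `u_y = 2 y dh`. `κ ≤ 0`, `κ R² > -4` give
`1 + κ w / 4 ≥ 1 + κ R² / 4 > 0` for `w ≤ R²`.
-/

set_option autoImplicit false

namespace Pool.Agent.helper75.IQ

open MeasureTheory Set

/-! ### One dimensional calculus -/

/-- ROW iq:POL (short-medium). Polar coordinates. Both measures are finite on bounded intervals; `volume {q | nq q < s} = π s` (`s > 0`; for example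
`Complex.volume_ball` and `Complex.volume_preserving_equiv_real_prod`, or `integral_comp_polarCoord_symm`), `{q | nq q ≤ 0}` is a null set. -/
def POL_stmt : Prop := Measure.map nq volume = ENNReal.ofReal Real.pi • (volume.restrict (Ioi (0 : ℝ)))

/-- ROW iq:CMP (medium). `G = GG κ τ` is continuous, positive and nondecreasing on `[0, ρ²]`, `ρ = max r R`. First claim: `w/R² / √(1 - w/R²) + √(1 - w/R²) = 1 / √(1 - w/R²)`. Let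
`𝒢(w) = ∫_0^w G`, a convex function: `𝒢(b) ≥ 𝒢(a) + G(a) (b - a)`. By parts (`((1 - w/r²)^(1/2))' = - 1 / (2 r² √(1 - w/r²))`)
`FF r = π / r² ∫_0^(r²) 𝒢(w) / √(1 - w/r²) dw = π ∫_0^1 𝒢(r² σ) / √(1 - σ) dσ` (`w = r² σ`), and `VV R = π R³ ∫_0^1 σ G(R² σ) / √(1 - σ) dσ`. With `b = r² σ`, `a = R² σ`:
`FF r ≥ FF R + (r² - R²) VV R / R³`. So `2/r VV R + FF r - PP R ≥ VV R / R (2 R/r + r²/R² - 3)` and, with `l = r/R`, `2/l + l² - 3 = (l - 1)² (l + 2) / l`. -/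
def CMP_stmt : Prop := ∀ κ τ r R : ℝ, κ ≤ 0 → 0 < r → -4 < κ * r ^ 2 → 0 < R → -4 < κ * R ^ 2 →
  2 / R * VV κ τ R + FF κ τ R = PP κ τ R ∧ 0 < VV κ τ R ∧ 0 ≤ FF κ τ R ∧
  PP κ τ R ≤ 2 / r * VV κ τ R + FF κ τ r ∧ (r ≠ R → PP κ τ R < 2 / r * VV κ τ R + FF κ τ r)

/-- ROW iq:SUR (medium). `VV R = π R³ ∫_0^1 σ G(R² σ) / √(1 - σ) dσ` (`w = R² σ`) is continuous in `R` (dominated convergence), `VV R ≤ π R³ G(R²) 4/3`. `κ = 0`: `VV R ≥ π R³ 4/3`.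
`κ < 0`, `k = -κ/4`, `R² = (1 - ε)/k`: for `σ ∈ [1 - ε, 1]`: `1 - k R² σ ≤ 2 ε`, `G(R² σ) ≥ 1/(4 ε²)`, and `∫_{1-ε}^1 σ / √(1 - σ) ≥ (1 - ε) 2 √ε`, so `VV R → ∞` as `ε → 0`. Intermediate values. -/
def SUR_stmt : Prop := ∀ κ τ V : ℝ, κ ≤ 0 → 0 < V → ∃ R : ℝ, 0 < R ∧ -4 < κ * R ^ 2 ∧ VV κ τ R = V

/-- ROW iq:HGT (medium). The integrand `v ↦ lam κ v * √((1 + τ² v) / (R² - v))` is continuous on `(-∞, R²)` and at most `C / √(R² - v)` near `R²`. -/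
def HGT_stmt : Prop := ∀ κ τ R : ℝ, κ ≤ 0 → 0 < R → -4 < κ * R ^ 2 →
  (∀ w, w ≤ R ^ 2 → IntervalIntegrable (fun v => lam κ v * √((1 + τ ^ 2 * v) / (R ^ 2 - v))) volume w (R ^ 2)) ∧
  hgt κ τ R (R ^ 2) = 0 ∧ ContinuousOn (hgt κ τ R) (Iic (R ^ 2)) ∧ (∀ w, 0 ≤ w → w < R ^ 2 → 0 < hgt κ τ R w) ∧
  (∀ w, w < R ^ 2 → HasDerivAt (hgt κ τ R) (dh κ τ R w) w) ∧ ContinuousOn (dh κ τ R) (Iio (R ^ 2))

/-! ### The ball -/

/-- ROW iq:BAL (medium, from HGT). `ball` is closed (`hgt` is continuous on `w ≤ R²`) and bounded; its interior contains `{nq < R², |t| < hgt}`, whose closure is `ball`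
(`(x, y, t)` is the limit of `(θ x, θ y, θ t)`: `hgt` is strictly decreasing in `w ≥ 0`, so `|θ t| < hgt (θ² w)` for `θ < 1`; `w = R²`: `t = 0`). -/
def BAL_stmt : Prop := ∀ κ τ R : ℝ, κ ≤ 0 → 0 < R → -4 < κ * R ^ 2 →
  IsRegion (ball κ τ R) ∧ TrapAt κ R (fun _ => 0) (ball κ τ R)

/-- ROW iq:BVO (medium, from POL, HGT). Fubini over the fibres of `(x, y, t) ↦ (x, y)` and POL: `vol = π ∫_0^(R²) lam² 2 hgt dw`. By parts with `(w lam κ w)' = (lam κ w)²` (`dh` is the derivative of `hgt`, `hgt (R²) = 0`):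
`= π ∫_0^(R²) w lam(w)² √((1 + τ² w)/(R² - w)) dw`, and `√(1/(R² - w)) = (1/R) / √(1 - w/R²)`. -/
def BVO_stmt : Prop := ∀ κ τ R : ℝ, κ ≤ 0 → 0 < R → -4 < κ * R ^ 2 → vol κ (ball κ τ R) = ENNReal.ofReal (VV κ τ R)

/-- ROW iq:IBP (medium). `λ` is smooth on `space κ`, the fields have compact support in `space κ`. `φ dv + (the integrand on the right) = ∂x (λ a φ) + ∂y (λ b φ) + ∂t (λ² (-τ y a + τ x b + c) φ)`, and the integral over `ℝ³` of a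
derivative of a `C¹` function with compact support is `0` (`integral_fderiv_eq_zero` or `integral_mul_fderiv_eq_neg_fderiv_mul_of_integrable`). -/
def IBP_stmt : Prop := ∀ (κ τ : ℝ) (Y : VF) (φ : Sp → ℝ), C1c κ Y → ContDiff ℝ 1 φ →
  ∫ p, φ p * dv κ τ Y p = -∫ p, (lam κ (nq (pr p)) * (Y.a p * fderiv ℝ φ p (1, 0, 0) + Y.b p * fderiv ℝ φ p (0, 1, 0)) +
    lam κ (nq (pr p)) ^ 2 * ((-(τ * p.2.1) * Y.a p + τ * p.1 * Y.b p + Y.c p) * fderiv ℝ φ p (0, 0, 1)))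

/-- ROW iq:UPB (medium-long, from POL, HGT, IBP). Let `h(s) = h_n(s)` be `C¹`, nondecreasing, `0` for `s ≤ 1/n`, `1` for `s ≥ 2/n` (`Real.smoothTransition (n s - 1)`). `φ(x, y, t) = h (u - t) h (u + t)` for `nq < R²`, `0` otherwise: `C¹` on `ℝ³`
(it is `0` where `u ≤ 1/n`, a neighbourhood of `nq ≥ R²`), `0 ≤ φ ≤ 1`, `φ → 1` on `{nq < R², |t| < u}` and `0` outside `ball`; `{|t| = u}` is a null set. So `TT ball Y = lim ∫ φ dv Y` and by IBP and Cauchy-Schwarz (`|Y| ≤ 1`)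
`∫ φ dv Y ≤ ∫ λ² |∇φ|`, `|∇φ|² = (λ⁻¹ φ_x - τ y φ_t)² + (λ⁻¹ φ_y + τ x φ_t)² + φ_t²`. `|∇(u ∓ t)|² = λ⁻² (u_x² + u_y²) + τ² w + 1 = (1 + τ² w) / (1 - w/R²)` (the mixed terms cancel, `4 w dh² = λ² w (1 + τ² w)/(R² - w)`), `|∇φ| ≤
(h'(u - t) h(u + t) + h(u - t) h'(u + t)) √((1 + τ² w)/(1 - w/R²))`, and `∫ h'(u ∓ t) h(..) dt ≤ 1`. So `∫ λ² |∇φ| ≤ 2 ∫_{nq < R²} λ² √((1 + τ² w)/(1 - w/R²)) = PP` (POL). -/
def UPB_stmt : Prop := ∀ κ τ R : ℝ, κ ≤ 0 → 0 < R → -4 < κ * R ^ 2 → per κ τ (ball κ τ R) ≤ ENNReal.ofReal (PP κ τ R)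

/-! ### The lower bound -/

/-- ROW iq:SEC (short-medium). The graph of `m` over `{nq ≤ r0²}` is compact, so there is `δ > 0` such that `(q, t) ∈ interior E` for `nq q ≤ r0²`, `|t - m q| ≤ δ` (`IsCompact.exists_thickening_subset_open`). `η = min (δ/2) ε`, `m'` a smooth function with
`|m' - m| < min (δ/2) ε` on `{nq ≤ r0²}` (`exists_smooth_forall_mem_convex_of_local_const` or similar for the convex sets `{y : |y - m q| < min (δ/2) ε}` if `nq q ≤ r0²`, all of `ℝ` otherwise; or Stone-Weierstrass). -/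
def SEC_stmt : Prop := ∀ (κ r : ℝ) (m : ℝ × ℝ → ℝ) (E : Set Sp), TrapAt κ r m E → ∀ r0 ε : ℝ, 0 < r0 → r0 < r → 0 < ε →
  ∃ (η : ℝ) (m' : ℝ × ℝ → ℝ), 0 < η ∧ η ≤ ε ∧ ContDiff ℝ 1 m' ∧ ∀ q : ℝ × ℝ, nq q ≤ r0 ^ 2 →
    |m' q - m q| ≤ ε ∧ ∀ t ∈ Icc (m' q) (m' q + η), ((q.1, q.2, t) : Sp) ∈ interior E

/-- ROW iq:LIN (medium). Linearity: the supports are compact and in `space κ`, where `λ` is smooth, so `dv κ τ Y` is continuous with compact support. Second: `Y / M` is admissible, `0 ≤ P`. Third: product rule (as in IBP) is not needed, only that `ψ Y` is a `C1c` field. -/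
def LIN_stmt : Prop := ∀ (κ τ : ℝ) (E : Set Sp), (∀ (Y Z : VF) (θ : ℝ), C1c κ Y → C1c κ Z → C1c κ (add Y Z θ) ∧
    TT κ τ E (add Y Z θ) = TT κ τ E Y + θ * TT κ τ E Z) ∧
  (∀ P : ℝ, per κ τ E ≤ ENNReal.ofReal P → 0 ≤ P → ∀ (Y : VF) (M : ℝ), C1c κ Y → 0 < M →
    (∀ p, Y.a p ^ 2 + Y.b p ^ 2 + Y.c p ^ 2 ≤ M ^ 2) → TT κ τ E Y ≤ M * P ∧ -(M * P) ≤ TT κ τ E Y) ∧
  (∀ (Y : VF) (ψ : Sp → ℝ), C1c κ Y → ContDiff ℝ 1 ψ → C1c κ (mul ψ Y))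

/-- ROW iq:CAL (long, from POL, SEC; the calibration). Let `r0 < r1 < r < r2 < r3`, `H r3 < 1`, `κ r3² > -4`. SEC for `r1`, `ε / 2`: `η`, `m'`. Cut-offs (`C¹`, values in `[0, 1]`): `χ(w) = 1` for `w ≤ r0²`, `0` for `w ≥ r1²`; `ζ(w) = 1` for `w ≤ r2²`,
`0` for `w ≥ r3²`; `ξ(t) = 1` for `|t| ≤ C'` where `C' ≥ C`, `E ⊆ {|t| < C'}`, `ξ` with compact support. `S(x, y, t) = 2 smoothTransition ((t - m'(x, y)) / η) - 1` (`-1` below `m'`, `1` above `m' + η`), `k = kk τ H w`.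
`Y = ξ (H ζ x - S χ k τ y, H ζ y + S χ k τ x, S χ k)`, `|Y|² ≤ H² ζ² w + χ² k² (1 + τ² w) ≤ 1` (`k² (1 + τ² w) = 1 - H² w`; where `χ ≠ 0`, `ζ = 1`). On (a neighbourhood of) `E`: `ξ = 1`, `ζ = 1` and, using
`∂x (λ x) + ∂y (λ y) = 2 λ²` (`2 λ + 2 w λ' = 2 λ²`) and `∂x (f(w) y) = ∂y (f(w) x)`: `dv Y = 2 H λ² + S_t Q`, `Q = χ k (λ τ (y m'_x - x m'_y) + λ² (1 + τ² w))`. `S_t ≠ 0` and `χ ≠ 0` only on points of `E` (SEC), so
`∫_E S_t Q = ∫_{ℝ²} Q ∫ S_t dt = 2 ∫ Q`; `∫ χ k λ τ (y m'_x - x m'_y) = 0` (it is `∂x (g y m') - ∂y (g x m')` with `g = χ k λ τ`, `C¹` with compact support); `χ k (1 + τ² w) ≥ √(1 - H² w) √(1 + τ² w)` on `w ≤ r0²`; POL.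
Last claim: `s = 1`: `t ≥ m + ε ≥ m' + η`; `s = -1`: `t ≤ m - ε ≤ m'`. -/
def CAL_stmt : Prop := ∀ (κ τ r : ℝ) (m : ℝ × ℝ → ℝ) (E : Set Sp), κ ≤ 0 → IsCompact E → TrapAt κ r m E →
  ∀ H r0 ε C : ℝ, 0 ≤ H → H * r < 1 → 0 < r0 → r0 < r → 0 < ε → ∃ Y : VF, Adm κ Y ∧
    2 * H * (vol κ E).toReal + 2 * Real.pi * ∫ w in (0 : ℝ)..r0 ^ 2, √(1 - H ^ 2 * w) * GG κ τ w ≤ TT κ τ E Y ∧
    ∀ p : Sp, nq (pr p) ≤ r0 ^ 2 → |p.2.2| ≤ C → ∀ s : ℝ, (s = 1 ∨ s = -1) → ε ≤ s * (p.2.2 - m (pr p)) →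
      Y.a p = (NN τ H s).a p ∧ Y.b p = (NN τ H s).b p ∧ Y.c p = (NN τ H s).c p

/-- ROW iq:LOW (short-medium, from CAL). `per ≥ TT E Y`; `√(1 - H² w) ≥ √(1 - w/r²)` for `H ≤ 1/r`, so `per ≥ 2 H vol + 2 π ∫_0^(r0²) √(1 - w/r²) G`; let `H → 1/r`, `r0 → r` (the primitive is continuous). `vol κ E < ∞` is not needed. -/
def LOW_stmt : Prop := ∀ (κ τ r : ℝ) (m : ℝ × ℝ → ℝ) (E : Set Sp), κ ≤ 0 → IsCompact E → TrapAt κ r m E →
  ENNReal.ofReal (2 / r * (vol κ E).toReal + FF κ τ r) ≤ per κ τ E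

/-! ### The case of equality -/

/-- ROW iq:EQT (medium-long, from LIN, CAL). `P = 2/R vol + FF ≥ 0`. Let `K` be the support of `Ψ` (resp. `ψ`): compact, in `{nq < R², s (t - m) > 0}`; so `nq ≤ r0²` with `r0 < R`, `|t| ≤ C`, `s (t - m) ≥ ε > 0` on `K`. For `H < 1/R`, `r0 < r1 < R` CAL (for `r1`) gives `Y`
with `TT E Y ≥ P(H, r1) := 2 H vol + 2 π ∫_0^(r1²) √(1 - H² w) G → P` (`H → 1/R`, `r1 → R`, as in LOW) and `Y = NN τ H s` on `K`; `NN τ H s → NN τ (1/R) s` uniformly on `K`; let `δ_H` bound the difference.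
(1) `|Ψ| ≤ M`: for `θ ∈ ℝ`: `|Y + θ Ψ|² ≤ 1 + 2 |θ| δ_H M + θ² M²` (on `K`: `Y · Ψ = (NN H - NN (1/R)) · Ψ`), so (LIN) `TT Y + θ TT Ψ ≤ √(1 + 2 |θ| δ_H M + θ² M²) P`; in the limit `P + θ TT Ψ ≤ √(1 + θ² M²) P`, so `θ TT Ψ ≤ θ² M² P / 2` for all `θ`, `TT Ψ = 0`.
(2) Scale: `ψ ≤ 1`. `TT Y = TT (ψ Y) + TT ((1 - ψ) Y) ≤ TT (ψ Y) + P`, so `TT (ψ NN H) ≥ P(H, r1) - P`; `TT (ψ NN H) → TT (ψ NN (1/R))` as `H → 1/R` (LIN: the difference is at most `sup |ψ (NN H - NN (1/R))| P`). Note `ψ NN` is `C1c`: `kk τ (1/R)` is smooth for `w < R²`. -/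
def EQT_stmt : Prop := ∀ (κ τ R : ℝ) (m : ℝ × ℝ → ℝ) (E : Set Sp), κ ≤ 0 → IsCompact E → TrapAt κ R m E →
  per κ τ E = ENNReal.ofReal (2 / R * (vol κ E).toReal + FF κ τ R) → ∀ s : ℝ, (s = 1 ∨ s = -1) →
  (∀ Ψ : VF, Side R s m Ψ.a → Side R s m Ψ.b → Side R s m Ψ.c →
    (∀ p, Ψ.a p * (NN τ (1 / R) s).a p + Ψ.b p * (NN τ (1 / R) s).b p + Ψ.c p * (NN τ (1 / R) s).c p = 0) →
    TT κ τ E Ψ = 0) ∧
  (∀ ψ : Sp → ℝ, Side R s m ψ → (∀ p, 0 ≤ ψ p) → 0 ≤ TT κ τ E (mul ψ (NN τ (1 / R) s)))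

/-- ROW iq:EQD (medium, from LIN, EQT). `N = NN τ (1/R) s`; `x/R = - λ⁻¹ u_x k`, `y/R = - λ⁻¹ u_y k` (`k = kk τ (1/R) w`), so `N = k (- λ⁻¹ u_x - s τ y, - λ⁻¹ u_y + s τ x, s)`. `x`: the field `Ψ = λ⁻¹ ψ (1, 0, s λ⁻¹ u_x + τ y)` is orthogonal to `N` and
`dv Ψ = ψ_x + s u_x ψ_t`. `y`: `Ψ = λ⁻¹ ψ (0, 1, s λ⁻¹ u_y - τ x)`, `dv Ψ = ψ_y + s u_y ψ_t`. `t`: `|N| = 1`, `s E₃ - k N` is orthogonal to `N`, so `s TT (ψ E₃) = TT (k ψ N) + TT (ψ (s E₃ - k N)) = TT (k ψ N) ≥ 0` and `TT (ψ E₃) = ∫_E λ² ψ_t`.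
(All these fields are `C1c`: `dh`, `kk` are smooth for `w < R²`.) -/
def EQD_stmt : Prop := ∀ (κ τ R : ℝ) (m : ℝ × ℝ → ℝ) (E : Set Sp), κ ≤ 0 → IsCompact E → TrapAt κ R m E →
  per κ τ E = ENNReal.ofReal (2 / R * (vol κ E).toReal + FF κ τ R) → ∀ s : ℝ, (s = 1 ∨ s = -1) →
  ∀ ψ : Sp → ℝ, Side R s m ψ → Con κ τ R s E ψ

/-- ROW iq:EXT (medium, from HGT; extension across the graph). `F = fill R s m E`. `K = {p ∈ tsupport ψ : s (t - m) ≤ 0}` is compact and contained in the open set `U = interior F` (points of the graph are in the interior of `E`; near the others `s (t - m) < 0`; `m` is continuous on `nq < R²`).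
Smooth cut-off `χ = 1` on a neighbourhood of `K`, support in `U ∩ {nq < R²}` (`exists_contDiff_tsupport_subset` or similar; or `exists_smooth_zero_one_of_isClosed`). `ψ = χ ψ + (1 - χ) ψ`. For `χ ψ`: the integrals over `F` are integrals over `ℝ³`, and they are `0` (for `x`: the integrand is `∂x (χ ψ) + ∂t (s u_x χ ψ)`, as `u_x` does
not depend on `t`; `u_x = 2 x dh` is continuous on the support). For `(1 - χ) ψ`: it is supported in `s (t - m) > 0`, where `F = E`: the hypothesis. -/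
def EXT_stmt : Prop := ∀ (κ τ R : ℝ) (m : ℝ × ℝ → ℝ) (E : Set Sp), κ ≤ 0 → IsCompact E → TrapAt κ R m E →
  ∀ s : ℝ, (s = 1 ∨ s = -1) → (∀ ψ : Sp → ℝ, Side R s m ψ → Con κ τ R s E ψ) →
  ∀ ψ : Sp → ℝ, Test R ψ → Con κ τ R s (fill R s m E) ψ

/-- ROW iq:WCL (medium). Convolve with `ContDiffBump`s `φ_ε`: `g_ε = g * φ_ε` (`g` replaced by `0` outside `nq < R²` or not) is smooth and for `nq q < (R - 2 ε)²` its `x` and `y` derivatives are `- ∫ g(p') ∂x' (φ_ε (p - p')) = 0`, so `g_ε (q, v) = g_ε (0, v)` there (the disc is convex). `g_ε → g` almost everywhere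
(`ContDiffBump.ae_convolution_tendsto_right_of_locallyIntegrable`). `G(v) = limsup g_ε (0, v)` along a sequence `ε → 0`. -/
def WCL_stmt : Prop := ∀ (R : ℝ) (g : Sp → ℝ), 0 < R → Measurable g → (∀ p, |g p| ≤ 1) →
  (∀ φ : Sp → ℝ, Test R φ → ∫ p, g p * fderiv ℝ φ p (1, 0, 0) = 0 ∧ ∫ p, g p * fderiv ℝ φ p (0, 1, 0) = 0) →
  ∃ G : ℝ → ℝ, Measurable G ∧ ∀ᵐ p : Sp, nq (pr p) < R ^ 2 → g p = G p.2.2

/-- ROW iq:MON (short-medium). For `a < b` and small `δ`, `ζ' =` (bump near `(a, a + δ)`) `-` (the same bump moved to `(b, b + δ)`), `ζ ≥ 0`: `∫_S bump_a ≥ ∫_S bump_b`. If for some `v₀` both `{v < v₀} \ S` and `{v > v₀} ∩ S` had positive measure, take density points `a` and `b` of these: contradiction. So `c = sup {v₀ : {v < v₀} \ S is null}`. -/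
def MON_stmt : Prop := ∀ (S : Set ℝ) (C : ℝ), MeasurableSet S → (∀ᵐ v : ℝ, v < -C → v ∈ S) → (∀ᵐ v : ℝ, C < v → v ∉ S) →
  (∀ ζ : ℝ → ℝ, ContDiff ℝ 1 ζ → HasCompactSupport ζ → (∀ v, 0 ≤ ζ v) → 0 ≤ ∫ v in S, deriv ζ v) →
  ∃ c : ℝ, ∀ᵐ v : ℝ, v ∈ S ↔ v < c

/-- ROW iq:EQA (medium-long, from HGT, WCL, MON). Shear coordinates `(q, v)`, `t = s (v + u(q))`, `u(q) = hgt (nq q)`, `nq q < R²` (measure preserving). `g(q, v) = 1` if `(q, s (v + u)) ∈ F = fill R s m E`, else `0` (`0` for `nq ≥ R²`). For a test function `φ` let `ψ(q, t) = φ(q, s t - u)` (`0` for `nq ≥ R²`): `ψ_x + s u_x ψ_t = φ_x`,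
`ψ_t = s φ_v`. So `∫ g φ_x = ∫ g φ_y = 0`, WCL: `g = G(v)` a.e.; `S = {G = 1}`. With `φ = φ₁(q) ζ(v)`, `φ₁ ≥ 0`: `(∫ λ² φ₁) ∫_S ζ' ≥ 0`. `|m|` is bounded (the graph is in `E`, compact): `v < -C` gives `g = 1`, `v > C` gives `g = 0`. MON. (`E` is measurable: compact; `m` is continuous on the disc.) -/
def EQA_stmt : Prop := ∀ (κ τ R : ℝ) (m : ℝ × ℝ → ℝ) (E : Set Sp), κ ≤ 0 → IsCompact E → TrapAt κ R m E →
  ∀ s : ℝ, (s = 1 ∨ s = -1) → (∀ ψ : Sp → ℝ, Test R ψ → Con κ τ R s (fill R s m E) ψ) →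
  ∃ c : ℝ, ∀ᵐ p : Sp, nq (pr p) < R ^ 2 → (p ∈ fill R s m E ↔ s * p.2.2 < hgt κ τ R (nq (pr p)) + c)

/-- ROW iq:EQF (medium, from HGT, BAL). `c₊` for `s = 1`, `c₋` for `s = -1`: for almost all `p` in the cylinder, `p ∈ E ↔ - u - c₋ < t < u + c₊` (`E` is the intersection of the two fills). Near the graph `E` is full, so `- u - c₋ ≤ m ≤ u + c₊` a.e.; the fibre of `E` has length `2 u + c₊ + c₋` a.e. and that of the
ball `2 u`; equal volumes (both finite, `λ > 0`): `c₊ + c₋ = 0`. So `E` and `sh c '' ball`, `c = c₊`, agree almost everywhere (`{nq = R²}` is a null set). Two compact sets which are the closures of their interiors and agree almost everywhere are equal (`interior E \ B'` is open and null, so empty: `interior E ⊆ B'`, `E ⊆ B'`). -/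
def EQF_stmt : Prop := ∀ (κ τ R : ℝ) (m : ℝ × ℝ → ℝ) (E : Set Sp), κ ≤ 0 → IsRegion E → TrapAt κ R m E →
  vol κ E = vol κ (ball κ τ R) →
  (∀ s : ℝ, (s = 1 ∨ s = -1) → ∃ c : ℝ, ∀ᵐ p : Sp, nq (pr p) < R ^ 2 →
    (p ∈ fill R s m E ↔ s * p.2.2 < hgt κ τ R (nq (pr p)) + c)) →
  ∃ c : ℝ, E = sh c '' ball κ τ R

/-- ROW iq:FIN (short, from CMP, SUR, BAL, BVO, UPB, LOW, EQD, EXT, EQA, EQF). `R` from SUR. `per ball ≤ PP` (UPB); LOW for `ball`, `r = R`: `per ball ≥ 2/R VV + FF = PP` (CMP). For `E`: LOW, CMP: `per E ≥ 2/r VV R + FF r ≥ PP R`, and `>` if `r ≠ R`; in case of equality `r = R` and EQD, EXT, EQA, EQF. -/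
def FIN_stmt : Prop := ∀ κ τ : ℝ, κ ≤ 0 → ∀ V : ℝ, 0 < V → ∃ R : ℝ, 0 < R ∧ -4 < κ * R ^ 2 ∧
  IsRegion (ball κ τ R) ∧ TrapAt κ R (fun _ => 0) (ball κ τ R) ∧ vol κ (ball κ τ R) = ENNReal.ofReal V ∧
  per κ τ (ball κ τ R) < ⊤ ∧
  ∀ (E : Set Sp) (r : ℝ) (m : ℝ × ℝ → ℝ), IsRegion E → TrapAt κ r m E → vol κ E = ENNReal.ofReal V →
    per κ τ (ball κ τ R) ≤ per κ τ E ∧
    (per κ τ E = per κ τ (ball κ τ R) → ∃ c : ℝ, E = sh c '' ball κ τ R)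

end Pool.Agent.helper75.IQ
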